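import Mathlib

/-!
# MP_4ddf81_pr : basic definitions

Random walk on a finite group with random generators `Z : Fin k → G`, jump rate one,
steps `x ↦ x * Z i` with `i` uniform in `Fin k`.
-/

namespace NilCut

open Filter Topology
open scoped commutatorElement

section walk

variable {G : Type} [Group G]

/-- The product `Z (w 0) * Z (w 1) * ⋯ * Z (w (n-1))` of the word `w` in the generators `Z`. -/
def wprod {k n : ℕ} (Z : Fin k → G) (w : Fin n → Fin k) : G :=
  (List.ofFn fun i => Z (w i)).prod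

/-- Law of the position after exactly `n` jumps (started at the identity). -/
noncomputable def stepLaw {k : ℕ} (Z : Fin k → G) (n : ℕ) (g : G) : ℝ :=
  (Nat.card {w : Fin n → Fin k // wprod Z w = g} : ℝ) / (k : ℝ) ^ n

/-- Law of the continuous-time walk at time `t`: the number of jumps is Poisson of mean `t`. -/
noncomputable def law {k : ℕ} (Z : Fin k → G) (t : ℝ) (g : G) : ℝ :=
  ∑' n : ℕ, Real.exp (-t) * t ^ n / (n.factorial : ℝ) * stepLaw Z n g

/-- Total variation distance of the law at time `t` to the uniform distribution. -/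
noncomputable def dTV [Fintype G] {k : ℕ} (Z : Fin k → G) (t : ℝ) : ℝ :=
  (1 / 2) * ∑ g : G, |law Z t g - 1 / (Nat.card G : ℝ)|

/-- Total variation distance after exactly `n` jumps. -/
noncomputable def tvStep [Fintype G] {k : ℕ} (Z : Fin k → G) (n : ℕ) : ℝ :=
  (1 / 2) * ∑ g : G, |stepLaw Z n g - 1 / (Nat.card G : ℝ)|

/-- Probability of the property `P` of `k` independent uniform elements of `G`. -/
noncomputable def prob (G : Type) (k : ℕ) (P : (Fin k → G) → Prop) : ℝ :=
  (Nat.card {Z : Fin k → G // P Z} : ℝ) / (Nat.card (Fin k → G) : ℝ)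

/-- Admissible times: `n ≥ 1`, `k ^ n ≥ |G|` and `(k [G:H]) ^ n ≥ |H / [H,H]| n ^ n`
for every subgroup `H` of `G`. -/
def good (G : Type) [Group G] (k n : ℕ) : Prop :=
  1 ≤ n ∧ Nat.card G ≤ k ^ n ∧
    ∀ H : Subgroup G, Nat.card (Abelianization H) * n ^ n ≤ (k * H.index) ^ n

/-- The cutoff time: the least admissible time. -/
noncomputable def nStar (G : Type) [Group G] (k : ℕ) : ℕ := sInf {n | good G k n}

/-- The set of elements reached by words of length at most `n`. -/
def reach {k : ℕ} (Z : Fin k → G) (n : ℕ) : Set G :=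
  {g | ∃ n' ≤ n, ∃ w : Fin n' → Fin k, wprod Z w = g}

end walk

section rep

variable {G : Type} [Group G]

/-- Irreducible matrix representation: the matrices span the full matrix algebra. -/
def IsIrr {d : ℕ} (ρ : G →* Matrix (Fin d) (Fin d) ℂ) : Prop :=
  Submodule.span ℂ (Set.range ρ) = ⊤

/-- Irreducible characters of degree `d`. -/
def IsIrrChar (G : Type) [Group G] (d : ℕ) (χ : G → ℂ) : Prop :=
  ∃ ρ : G →* Matrix (Fin d) (Fin d) ℂ, IsIrr ρ ∧ ∀ g, χ g = (ρ g).trace

open Classical in
/-- A complete set of irreducible matrix representations (with the decomposition of the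
regular character). -/
structure Planch (G : Type) [Group G] where
  ι : Type
  fin : Fintype ι
  d : ι → ℕ
  ρ : ∀ i, G →* Matrix (Fin (d i)) (Fin (d i)) ℂ
  pos : ∀ i, 0 < d i
  irr : ∀ i, IsIrr (ρ i)
  inj : ∀ i j, (∀ g, (ρ i g).trace = (ρ j g).trace) → i = j
  planch : ∀ g : G, ∑ i, (d i : ℂ) * (ρ i g).trace = if g = 1 then (Nat.card G : ℂ) else 0

attribute [instance] Planch.fin

/-- The sum `∑ᵢ dᵢ² ∏_{j=1}^m (1 + j / dᵢ)` over the irreducible representations. -/
noncomputable def Planch.S (P : Planch G) (m : ℕ) : ℝ :=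
  ∑ i, (P.d i : ℝ) ^ 2 * ∏ j ∈ Finset.range m, (1 + ((j : ℝ) + 1) / (P.d i : ℝ))

/-- Number of colourings with `d` colours which are invariant under the permutation `φ`. -/
noncomputable def fixN {α : Type} (d : ℕ) (φ : Equiv.Perm α) : ℕ :=
  Nat.card {p : α → Fin d // ∀ a, p (φ a) = p a}

/-- `c₀ z₀ c₁ z₁ ⋯ z_{m-1} c_m`. -/
def altW {m : ℕ} (c : Fin (m + 1) → G) (z : Fin m → G) : G :=
  c 0 * (List.ofFn fun l : Fin m => z l * c l.succ).prod

/-- The permutation of `Fin (m+1)` with `0 ↦ 0` and `l + 1 ↦ σ l + 1`. -/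
def sucP {m : ℕ} (σ : Equiv.Perm (Fin m)) : Equiv.Perm (Fin (m + 1)) :=
  Equiv.Perm.decomposeFin.symm (0, σ)

/-- The permutation of `Fin (m+1)` with `l ↦ σ l` for `l < m` and `m ↦ m`. -/
def casP {m : ℕ} (σ : Equiv.Perm (Fin m)) : Equiv.Perm (Fin (m + 1)) :=
  (finRotate (m + 1))⁻¹ * sucP σ * finRotate (m + 1)

/-- The permutation of `Fin (m+1)` which describes the index loops of the pair `(id, σ)`. -/
def phiP {m : ℕ} (σ : Equiv.Perm (Fin m)) : Equiv.Perm (Fin (m + 1)) :=
  sucP σ * (casP σ)⁻¹

end rep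

section words

/-- Position `i` of the word `w` carries a letter which occurs nowhere else in `w`. -/
def uniq {k n : ℕ} (w : Fin n → Fin k) (i : Fin n) : Prop := ∀ j, j ≠ i → w j ≠ w i

open Classical in
/-- The set of the positions with a unique letter. -/
noncomputable def uq {k n : ℕ} (w : Fin n → Fin k) : Finset (Fin n) :=
  Finset.univ.filter fun i => uniq w i

/-- Two words have the same skeleton: the same positions with unique letters and
the same letters at the other positions. -/
def sameSk {k n : ℕ} (w w' : Fin n → Fin k) : Prop :=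
  (∀ i, uniq w i ↔ uniq w' i) ∧ ∀ i, ¬ uniq w i → w i = w' i

end words

section comm

variable {G : Type} [Group G]

/-- The lower central series of `G` (`lc G 0 = G`, `lc G (i+1) = [lc G i, G]`). -/
def lc (G : Type) [Group G] (j : ℕ) : Subgroup G := (⊤ : Subgroup G).lowerCentralSeries j

/-- `[g, x]` for `g` in the `j`-th term, as an element of the next term. -/
def brk {j : ℕ} (g : lc G j) (x : G) : lc G (j + 1) :=
  ⟨⁅(g : G), x⁆, Subgroup.commutator_mem_commutator g.2 (Subgroup.mem_top x)⟩

/-- A character of `lc G j` which is trivial on the next term. -/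
def Cen {j : ℕ} (ω : lc G j →* ℂˣ) : Prop := ∀ g : lc G j, (g : G) ∈ lc G (j + 1) → ω g = 1

/-- The characters `x ↦ ω [g, x]` of `G`, `g` in the `j`-th term. -/
def Yset {j : ℕ} (ω : lc G (j + 1) →* ℂˣ) : Set (G →* ℂˣ) :=
  {l | ∃ g : lc G j, ∀ x, l x = ω (brk g x)}

/-- Left normed commutator `[…[[h 0, h 1], h 2], …, h j]`, as an element of `lc G j`. -/
def lncE (h : ℕ → G) : (j : ℕ) → lc G j
  | 0 => ⟨h 0, Subgroup.mem_top _⟩
  | j + 1 => brk (lncE h j) (h (j + 1))

/-- The common kernel of a set of characters. -/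
def ann (Y : Set (G →* ℂˣ)) : Subgroup G := ⨅ l ∈ Y, l.ker

/-- The order of the `i`-th factor `lc G i / lc G (i+1)`. -/
noncomputable def Lsz (G : Type) [Group G] (i : ℕ) : ℕ := (lc G (i + 1)).relIndex (lc G i)

/-- The irreducible character `χ` of degree `D` is afforded by a representation `ρ` such that
some `ρ g` intertwines `ρ` with its twist by the linear character `l`. -/
def Twist (G : Type) [Group G] (D : ℕ) (χ : G → ℂ) (l : G →* ℂˣ) : Prop :=
  ∃ ρ : G →* Matrix (Fin D) (Fin D) ℂ, IsIrr ρ ∧ (∀ g, χ g = (ρ g).trace) ∧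
    ∃ g : G, ∀ x, ρ g * ρ x = ((l x : ℂˣ) : ℂ) • (ρ x * ρ g)

end comm

section poisson

/-- Poisson weights. -/
noncomputable def pois (t : ℝ) (n : ℕ) : ℝ := Real.exp (-t) * t ^ n / (n.factorial : ℝ)

end poisson

end NilCut
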