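import Pool.Agent.Lib.MP_4ddf81_pr.Stm

/-!
# MP_4ddf81_pr, stage 2 : definitions

The regime in which the number `k` of the generators is of order `log |G|`.
-/

namespace NilCut

open Filter Topology

section ind

variable {G : Type} [Group G] [Fintype G]

open Classical in
/-- The character of `G` induced from the linear character `lam` of `H`. -/
noncomputable def indL (H : Subgroup G) (lam : H →* ℂˣ) (g : G) : ℂ :=
  (1 / (Nat.card H : ℂ)) *
    ∑ y : G, if h : y⁻¹ * g * y ∈ H then ((lam ⟨y⁻¹ * g * y, h⟩ : ℂˣ) : ℂ) else 0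

/-- The quadratic form of the function `χ` (a character) on real functions. -/
noncomputable def QF (χ : G → ℂ) (μ : G → ℝ) : ℝ :=
  (∑ a : G, ∑ b : G, (μ a : ℂ) * (μ b : ℂ) * χ (b⁻¹ * a)).re

open Classical in
/-- The vector of the function `μ` for the pair `(H, lam)`. -/
noncomputable def VV (H : Subgroup G) (lam : H →* ℂˣ) (μ : G → ℝ) (y g : G) : ℂ :=
  ∑ x : H, (μ (g * x * y⁻¹) : ℂ) * ((lam x : ℂˣ) : ℂ)

/-- Convolution. -/
noncomputable def conv (μ ν : G → ℝ) (g : G) : ℝ := ∑ h : G, μ h * ν (h⁻¹ * g)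

/-- The operator of one step (acting on the left). -/
noncomputable def TZ {k : ℕ} (Z : Fin k → G) (v : G → ℂ) (g : G) : ℂ :=
  (1 / (k : ℂ)) * ∑ i : Fin k, v ((Z i)⁻¹ * g)

/-- `lam`-covariant functions. -/
def Cov (H : Subgroup G) (lam : H →* ℂˣ) (v : G → ℂ) : Prop :=
  ∀ (g : G) (h : H), v (g * h) = (((lam h)⁻¹ : ℂˣ) : ℂ) * v g

/-- Spectral gap `c` (squared norms) of one step on the `lam`-covariant functions. -/
def Gap {k : ℕ} (Z : Fin k → G) (H : Subgroup G) (lam : H →* ℂˣ) (c : ℝ) : Prop :=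
  ∀ v : G → ℂ, Cov H lam v → ∑ g : G, ‖TZ Z v g‖ ^ 2 ≤ (1 - c) * ∑ g : G, ‖v g‖ ^ 2

/-- The law of `wprod Z w`, `w` uniform, restricted to the words of a set `A`. -/
noncomputable def wlaw {k n : ℕ} (Z : Fin k → G) (A : Set (Fin n → Fin k)) (g : G) : ℝ :=
  (Nat.card {w : Fin n → Fin k // w ∈ A ∧ wprod Z w = g} : ℝ) / (k : ℝ) ^ n

/-- All the irreducible characters are monomial (as for nilpotent groups). -/
structure Mono (P : Planch G) where
  H : P.ι → Subgroup G
  lam : ∀ i, H i →* ℂˣ
  idx : ∀ i, (H i).index = P.d i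
  tr : ∀ i g, (P.ρ i g).trace = indL (H i) (lam i) g

/-- The representation `i` is not the trivial one. -/
def Planch.nt (P : Planch G) (i : P.ι) : Prop := ∃ g, (P.ρ i g).trace ≠ 1

open Classical in
/-- The part of `P.S m` of the degrees larger than `D`. -/
noncomputable def Planch.SD (P : Planch G) (D m : ℕ) : ℝ :=
  ∑ i ∈ Finset.univ.filter (fun i => D < P.d i),
    (P.d i : ℝ) ^ 2 * ∏ j ∈ Finset.range m, (1 + ((j : ℝ) + 1) / (P.d i : ℝ))

/-- Words of length `n` with at most `r` positions with a repeated letter. -/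
def fewRep (k n r : ℕ) : Set (Fin n → Fin k) := {w | n ≤ (uq w).card + r}

end ind

section conj

variable {G : Type} [Group G]

/-- The action of the integral combination `δ` of cosets on the Abelianisation of `K`. -/
noncomputable def phiH (K : Subgroup G) [K.Normal] [Fintype (G ⧸ K)] (δ : G ⧸ K → ℤ) :
    K →* Abelianization K :=
  ∏ a : G ⧸ K,
    (Abelianization.of.comp (MulAut.conjNormal (Quotient.out a)).toMonoidHom) ^ (δ a)

/-- The subgroup of the Abelianisation of `K` generated by the images of `phiH K δ`, `δ ∈ S`. -/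
noncomputable def MS (K : Subgroup G) [K.Normal] [Fintype (G ⧸ K)] (S : Finset (G ⧸ K → ℤ)) :
    Subgroup (Abelianization K) :=
  ⨆ δ ∈ S, (phiH K δ).range

/-- `lam (x⁻¹ g)`, `x` the representative of the left coset of `g` modulo `H`. -/
noncomputable def ph (H : Subgroup G) (lam : H →* ℂˣ) (g : G) : ℂˣ :=
  lam ⟨(Quotient.out (g : G ⧸ H))⁻¹ * g, by
    rw [← QuotientGroup.eq]
    exact Quotient.out_eq' _⟩

/-- The ordered product of the conjugates of `u` at the occurrences of the letter `i`. -/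
def bW {k n : ℕ} (Z : Fin k → G) (w : Fin n → Fin k) (i : Fin k) (u : G) : G :=
  (List.ofFn fun j : Fin n =>
    if w j = i then ((List.ofFn fun l => Z (w l)).take j).prod * u *
      (((List.ofFn fun l => Z (w l)).take j).prod)⁻¹ else 1).prod

end conj

section count

variable {Q : Type} [Group Q]

/-- The state after `j` steps of the walk driven by the word `w`. -/
def st {k n : ℕ} (z : Fin k → Q) (w : Fin n → Fin k) (j : ℕ) : Q :=
  ((List.ofFn fun i => z (w i)).take j).prod

open Classical in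
/-- The number of the steps at which the letter `i` is used in the state `a`. -/
noncomputable def cnt {k n : ℕ} (z : Fin k → Q) (w : Fin n → Fin k) (i : Fin k) (a : Q) : ℕ :=
  (Finset.univ.filter fun j : Fin n => w j = i ∧ st z w j = a).card

open Classical in
/-- The number of the steps which start in the state `a`. -/
noncomputable def occ {k n : ℕ} (z : Fin k → Q) (w : Fin n → Fin k) (a : Q) : ℕ :=
  (Finset.univ.filter fun j : Fin n => st z w j = a).card

open Classical in
/-- The number of the steps from the state `a` with an increment `q`. -/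
noncomputable def trs {k n : ℕ} (z : Fin k → Q) (w : Fin n → Fin k) (a q : Q) : ℕ :=
  (Finset.univ.filter fun j : Fin n => st z w j = a ∧ z (w j) = q).card

open Classical in
/-- The differences of the counts of two words with entries at most `R`. -/
noncomputable def Sset {k n n' : ℕ} (R : ℕ) (z : Fin k → Q) (w : Fin n → Fin k)
    (w' : Fin n' → Fin k) : Finset (Q → ℤ) :=
  (Finset.univ.image fun i : Fin k => fun a : Q => (cnt z w i a : ℤ) - (cnt z w' i a : ℤ)).filter
    fun δ => ∀ a, |δ a| ≤ (R : ℤ)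

/-- The additive subgroup generated by the right translates of the elements of `S`. -/
def rS (S : Finset (Q → ℤ)) : AddSubgroup (Q → ℤ) :=
  AddSubgroup.closure {x | ∃ δ ∈ S, ∃ q : Q, ∀ b, x b = δ (b * q⁻¹)}

variable [Fintype Q]

/-- Product of Poisson weights of mean `s / |Q|`. -/
noncomputable def pw (s : ℝ) (x : Q → ℕ) : ℝ :=
  ∏ a : Q, pois (s / (Fintype.card Q : ℝ)) (x a)

open Classical in
/-- The count vectors with entries at most `L`. -/
noncomputable def XL (Q : Type) [Fintype Q] (L : ℕ) : Finset (Q → ℕ) :=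
  Fintype.piFinset fun _ => Finset.range (L + 1)

open Classical in
/-- The Poisson weight of the class of `x` modulo `rS S`. -/
noncomputable def clsS (S : Finset (Q → ℤ)) (s : ℝ) (L : ℕ) (x : Q → ℕ) : ℝ :=
  ∑ y ∈ (XL Q L).filter (fun y => (fun a => (y a : ℤ) - (x a : ℤ)) ∈ rS S), pw s y

/-- The entropy of the classes modulo `rS S`. -/
noncomputable def HS (S : Finset (Q → ℤ)) (s : ℝ) (L : ℕ) : ℝ :=
  ∑ x ∈ XL Q L, pw s x * (-Real.log (clsS S s L x))

open Classical in
/-- The integral vectors with entries at most `R` in absolute value. -/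
noncomputable def BR (Q : Type) [Fintype Q] (R : ℕ) : Finset (Q → ℤ) :=
  Fintype.piFinset fun _ => Finset.Icc (-(R : ℤ)) (R : ℤ)

open Classical in
/-- Typical families of counts (for the upper bound). -/
structure TypN {k : ℕ} (s η R' a : ℝ) (R L : ℕ) (N : Fin k → Q → ℕ) : Prop where
  ent : ∀ S ⊆ BR Q R, (k : ℝ) * (HS S s L - η) ≤ ∑ i, -Real.log (clsS S s L (N i))
  tail : ∑ i, max (-Real.log (pw s (N i)) - R') 0 ≤ η * (k : ℝ)
  big : (Nat.card {i : Fin k // ∃ b, R < N i b} : ℝ) ≤ a * (k : ℝ)

/-- Typical words. -/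
def GW {k n : ℕ} (s ε η R' a : ℝ) (R L : ℕ) (z : Fin k → Q) : Set (Fin n → Fin k) :=
  {w | (∀ b, (occ z w b : ℝ) ≤ (n : ℝ) / (Fintype.card Q : ℝ) + ε * (k : ℝ)) ∧
    TypN s η R' a R L (cnt z w)}

/-- The factor of the comparison with the product law. -/
noncomputable def Wf (J : ℕ) (s ε : ℝ) (k n : ℕ) : ℝ :=
  (Real.exp 1 * ((n : ℝ) + 1)) ^ J * Real.exp (s * (k : ℝ) - (n : ℝ)) *
    (((n : ℝ) + (J : ℝ) * ε * (k : ℝ)) / (s * (k : ℝ))) ^ n

end count

end NilCut
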