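import Pool.Agent.Lib.MP_4ddf81_pr.Stm2

/-!
# MP_4ddf81_pr, stage 3 : definitions

The saturated regime: the rank of `G` is `(1 - o(1)) k`.
-/

namespace NilCut

open Filter Topology

section rate

variable {G : Type} [Group G] [Fintype G]

/-- In continuous time the squared norms of the `lam`-covariant functions decay at rate `2 r`. -/
def DGap {k : ℕ} (Z : Fin k → G) (H : Subgroup G) (lam : H →* ℂˣ) (r : ℝ) : Prop :=
  ∀ v : G → ℂ, Cov H lam v →
    2 * r * (k : ℝ) * ∑ g : G, ‖v g‖ ^ 2 ≤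
      ∑ i : Fin k, ∑ g : G, ‖v ((Z i)⁻¹ * g) - v g‖ ^ 2

/-- Distance to the uniform distribution after time `t` and `n` further jumps. -/
noncomputable def tvMix {k : ℕ} (Z : Fin k → G) (t : ℝ) (n : ℕ) : ℝ :=
  (1 / 2) * ∑ g : G, |conv (law Z t) (stepLaw Z n) g - 1 / (Nat.card G : ℝ)|

/-- The representation `i` is trivial on `[K, K]` but not on `K`. -/
def Planch.Kl (P : Planch G) (K : Subgroup G) (i : P.ι) : Prop :=
  (∀ x ∈ ⁅K, K⁆, P.ρ i x = 1) ∧ ∃ x ∈ K, P.ρ i x ≠ 1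

/-- The energy of one letter for the function `v`. -/
noncomputable def Ez (v : G → ℂ) (z : G) : ℝ :=
  (∑ g : G, ‖v (z⁻¹ * g) - v g‖ ^ 2) / (2 * (Nat.card G : ℝ))

end rate

section cfs

variable {G : Type} [Group G]

/-- The values of the conjugates of the linear character `lam` of `K` at `κ`. -/
noncomputable def cf (K : Subgroup G) [K.Normal] (lam : K →* ℂˣ) (κ : K) (x : G ⧸ K) : ℂ :=
  ((lam (MulAut.conjNormal (Quotient.out x) κ) : ℂˣ) : ℂ)

/-- The set of the functions `cf K lam κ`. -/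
noncomputable def CF [Finite G] (K : Subgroup G) [K.Normal] (lam : K →* ℂˣ) :
    Finset (G ⧸ K → ℂ) :=
  (Set.finite_range (cf K lam)).toFinset

/-- `P` is a complement of `K` modulo the common kernel of the conjugates of `lam`. -/
def Cpl (P K : Subgroup G) [K.Normal] (lam : K →* ℂˣ) : Prop :=
  P ⊔ K = ⊤ ∧ ∀ κ : K, ((κ : G) ∈ P ↔ ∀ x : G, lam (MulAut.conjNormal x κ) = 1)

/-- The number of the pairs `(P, lam)` with the set `C` of the functions `cf`. -/
noncomputable def NC [Finite G] (K : Subgroup G) [K.Normal] (r : ℕ)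
    (C : Finset (G ⧸ K → ℂ)) : ℕ :=
  Nat.card {p : Subgroup G × (K →* ℂˣ) //
    Cpl p.1 K p.2 ∧ p.2 ≠ 1 ∧ Nat.card p.2.range ≤ r ∧ CF K p.2 = C}

end cfs

section energy

variable {Q : Type} [Fintype Q]

/-- The energy. -/
noncomputable def En (c : Q → ℂ) : ℝ := (∑ x, (1 - (c x).re)) / (Fintype.card Q : ℝ)

/-- The average of `exp (-2 s E)`. -/
noncomputable def ph3 (C : Finset (Q → ℂ)) (s : ℝ) : ℝ :=
  (∑ c ∈ C, Real.exp (-(2 * s * En c))) / (C.card : ℝ)

/-- The product of the values of `c` with the multiplicities `N`. -/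
noncomputable def evc (c : Q → ℂ) (N : Q → ℕ) : ℂ := ∏ x, c x ^ N x

end energy

/-- The (normalised) cutoff time in the saturated case. -/
noncomputable def sStar {G : Type} [Group G] [Finite G] (K : Subgroup G) [K.Normal]
    [Fintype (G ⧸ K)] (k r : ℕ) : ℝ :=
  sInf {s : ℝ | 0 ≤ s ∧ ∀ lam : K →* ℂˣ, lam ≠ 1 → Nat.card lam.range ≤ r →
    (NC K r (CF K lam) : ℝ) * ph3 (CF K lam) s ^ k ≤ 1}

/-- The number of the indices with the value `q`. -/
noncomputable def kq {Q : Type} {k : ℕ} (z : Fin k → Q) (q : Q) : ℕ :=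
  Nat.card {i : Fin k // z i = q}

/-- The states of a path with the increments `q`. -/
def pst {Q : Type} [Group Q] {n : ℕ} (q : Fin n → Q) (j : ℕ) : Q := ((List.ofFn q).take j).prod

/-- Proper overgroups of codimension one of the subgroups not containing `[K, K]`. -/
def BadT {G : Type} [Group G] (K P : Subgroup G) : Prop :=
  ¬ ⁅K, K⁆ ≤ P ∧ P ⊔ K = ⊤ ∧ ∃ (P₁ : Subgroup G) (lam : P₁ →* ℂˣ) (p : ℕ), p.Prime ∧
    P ≤ P₁ ∧ ⁅K, K⁆ ≤ P₁ ∧ lam ^ p = 1 ∧ (∀ x : P₁, (x : G) ∈ P ↔ lam x = 1) ∧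
    P.index = p * P₁.index

/-- The linear character `μ` of `[K, K]` extends to the subgroup `U`. -/
def ExtU {G : Type} [Group G] (K U : Subgroup G) (μ : (⁅K, K⁆ : Subgroup G) →* ℂˣ) : Prop :=
  ∃ lam : U →* ℂˣ, ∀ (x : G) (hx : x ∈ ⁅K, K⁆) (hU : x ∈ U), lam ⟨x, hU⟩ = μ ⟨x, hx⟩

/-- The linear characters of `[K, K]` which extend to a subgroup of index at most `B` of `K`. -/
def MuS {G : Type} [Group G] (K : Subgroup G) (B : ℕ) : Set ((⁅K, K⁆ : Subgroup G) →* ℂˣ) :=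
  {μ | ∃ U : Subgroup G, ⁅K, K⁆ ≤ U ∧ U ≤ K ∧ U.relIndex K ≤ B ∧ ExtU K U μ}

end NilCut
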