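import Pool.Agent.Lib.MP_4ddf81_pr.P.Alt
import Pool.Agent.Lib.MP_4ddf81_pr.P.AvTr
import Pool.Agent.Lib.MP_4ddf81_pr.P.CenCount
import Pool.Agent.Lib.MP_4ddf81_pr.P.Clif
import Pool.Agent.Lib.MP_4ddf81_pr.P.Clif2
import Pool.Agent.Lib.MP_4ddf81_pr.P.Dual1
import Pool.Agent.Lib.MP_4ddf81_pr.P.Dual2
import Pool.Agent.Lib.MP_4ddf81_pr.P.Exist
import Pool.Agent.Lib.MP_4ddf81_pr.P.Expand
import Pool.Agent.Lib.MP_4ddf81_pr.P.Fix
import Pool.Agent.Lib.MP_4ddf81_pr.P.Form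
import Pool.Agent.Lib.MP_4ddf81_pr.P.Gen
import Pool.Agent.Lib.MP_4ddf81_pr.P.Grow
import Pool.Agent.Lib.MP_4ddf81_pr.P.Indep
import Pool.Agent.Lib.MP_4ddf81_pr.P.Ker
import Pool.Agent.Lib.MP_4ddf81_pr.P.L1
import Pool.Agent.Lib.MP_4ddf81_pr.P.L2
import Pool.Agent.Lib.MP_4ddf81_pr.P.Lev
import Pool.Agent.Lib.MP_4ddf81_pr.P.LimLow
import Pool.Agent.Lib.MP_4ddf81_pr.P.LimUp
import Pool.Agent.Lib.MP_4ddf81_pr.P.Lin
import Pool.Agent.Lib.MP_4ddf81_pr.P.Loops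
import Pool.Agent.Lib.MP_4ddf81_pr.P.Low
import Pool.Agent.Lib.MP_4ddf81_pr.P.LowIneq
import Pool.Agent.Lib.MP_4ddf81_pr.P.Lprod
import Pool.Agent.Lib.MP_4ddf81_pr.P.Main
import Pool.Agent.Lib.MP_4ddf81_pr.P.Mult
import Pool.Agent.Lib.MP_4ddf81_pr.P.N
import Pool.Agent.Lib.MP_4ddf81_pr.P.P1
import Pool.Agent.Lib.MP_4ddf81_pr.P.P2
import Pool.Agent.Lib.MP_4ddf81_pr.P.Perm
import Pool.Agent.Lib.MP_4ddf81_pr.P.Phi
import Pool.Agent.Lib.MP_4ddf81_pr.P.Pop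
import Pool.Agent.Lib.MP_4ddf81_pr.P.Reg
import Pool.Agent.Lib.MP_4ddf81_pr.P.Repl
import Pool.Agent.Lib.MP_4ddf81_pr.P.SBound
import Pool.Agent.Lib.MP_4ddf81_pr.P.Schur
import Pool.Agent.Lib.MP_4ddf81_pr.P.Sdeg
import Pool.Agent.Lib.MP_4ddf81_pr.P.Seq
import Pool.Agent.Lib.MP_4ddf81_pr.P.Step
import Pool.Agent.Lib.MP_4ddf81_pr.P.T1
import Pool.Agent.Lib.MP_4ddf81_pr.P.T2
import Pool.Agent.Lib.MP_4ddf81_pr.P.T3
import Pool.Agent.Lib.MP_4ddf81_pr.P.Thin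
import Pool.Agent.Lib.MP_4ddf81_pr.P.Three
import Pool.Agent.Lib.MP_4ddf81_pr.P.Tr
import Pool.Agent.Lib.MP_4ddf81_pr.P.Up
import Pool.Agent.Lib.MP_4ddf81_pr.P.W
import Pool.Agent.Lib.MP_4ddf81_pr.P.W1
import Pool.Agent.Lib.MP_4ddf81_pr.P.W2
import Pool.Agent.Lib.MP_4ddf81_pr.P.W3
import Pool.Agent.Lib.MP_4ddf81_pr.P.W4
import Pool.Agent.Lib.MP_4ddf81_pr.P.W5
import Pool.Agent.Lib.MP_4ddf81_pr.P.Wed

/-!
# MP_4ddf81_pr : assembly
-/

namespace NilCut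

open Filter Topology

theorem all_Loops : S_Loops := p_Loops p_Tr
theorem all_AvTr : S_AvTr := p_AvTr p_Schur p_Expand
theorem all_Perm : S_Perm := p_Perm all_Loops p_Fix p_Phi all_AvTr
theorem all_W1 : S_W1 := p_W1 p_Alt all_Perm
theorem all_W4 : S_W4 := p_W4 all_W1 p_W2 p_W3
theorem all_W : S_W := p_W all_W4 p_W5
theorem all_T2 : S_T2 := p_T2 p_T1
theorem all_CenCount : S_CenCount := p_CenCount p_Dual2
theorem all_Thin : S_Thin := p_Thin all_CenCount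
theorem all_Mult : S_Mult := p_Mult p_Form
theorem all_Gen : S_Gen := p_Gen p_Form
theorem all_Repl : S_Repl := p_Repl p_Form p_Dual2
theorem all_Ker : S_Ker :=
  p_Ker p_Form all_Thin p_Lprod p_Dual1 p_Dual2 all_Repl p_Indep all_Mult all_Gen
theorem all_Pop : S_Pop := p_Pop p_Form p_Dual2 all_CenCount p_Lprod p_Three all_Ker p_Grow
theorem all_Lev : S_Lev := p_Lev p_Form
theorem all_Clif2 : S_Clif2 := p_Clif2 p_Clif
theorem all_Step : S_Step := p_Step p_Form all_Lev all_Pop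
theorem all_N : S_N := p_N all_Step all_Clif2 p_Lin
theorem all_SBound : S_SBound := p_SBound p_Sdeg all_N
theorem all_Seq : S_Seq := p_Seq p_Exist
theorem all_Reg : S_Reg := p_Reg p_Exist
theorem all_LowIneq : S_LowIneq := p_LowIneq p_L1 p_L2
theorem all_Up : S_Up := p_Up p_Wed all_W all_SBound p_LimUp all_Reg
theorem all_Low : S_Low := p_Low all_LowIneq p_LimLow all_Reg
theorem all_Main : S_Main := p_Main all_T2 p_T3 p_P1 p_P2 all_Up all_Low all_Reg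

/-- Cutoff for nilpotent groups when the cutoff time is much smaller than the number of
generators, in particular for `log |G| ≪ k`, `log k ≪ log |G|`. -/
theorem final (G : ℕ → Type) [∀ n, Group (G n)] [∀ n, Fintype (G n)] (k : ℕ → ℕ)
    (hnil : ∀ n, Group.IsNilpotent (G n))
    (hG : Tendsto (fun n => (Nat.card (G n) : ℝ)) atTop atTop)
    (hk : Tendsto (fun n => Real.log (k n) / Real.log (Nat.card (G n))) atTop (𝓝 0))
    (h : Tendsto (fun n => (k n : ℝ) / Real.log (Nat.card (G n))) atTop atTop ∨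
      ((∀ᶠ n in atTop, good (G n) (k n) (nStar (G n) (k n))) ∧
        Tendsto (fun n => (k n : ℝ) / (nStar (G n) (k n) : ℝ)) atTop atTop)) :
    (∀ ε : ℝ, 0 < ε → ε < 1 → ∀ δ : ℝ, 0 < δ →
      Tendsto (fun n => prob (G n) (k n) fun Z =>
        1 - δ ≤ dTV Z ((1 - ε) * (nStar (G n) (k n) : ℝ))) atTop (𝓝 1)) ∧
    (∀ ε : ℝ, 0 < ε → ∀ δ : ℝ, 0 < δ →
      Tendsto (fun n => prob (G n) (k n) fun Z =>
        dTV Z ((1 + ε) * (nStar (G n) (k n) : ℝ)) ≤ δ) atTop (𝓝 1)) := by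
  refine all_Main G k hnil ?_
  rcases h with h | h
  · exact all_Seq G k ⟨hG, h, hk⟩
  · exact ⟨hG, hk, h.1, h.2⟩

end NilCut
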