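import Pool.Agent.Lib.MP_4ddf81_pr.Final
import Pool.Agent.Lib.MP_4ddf81_pr.P2.AbSub
import Pool.Agent.Lib.MP_4ddf81_pr.P2.Anti
import Pool.Agent.Lib.MP_4ddf81_pr.P2.B1
import Pool.Agent.Lib.MP_4ddf81_pr.P2.B1a
import Pool.Agent.Lib.MP_4ddf81_pr.P2.B1b
import Pool.Agent.Lib.MP_4ddf81_pr.P2.B1c
import Pool.Agent.Lib.MP_4ddf81_pr.P2.Case1
import Pool.Agent.Lib.MP_4ddf81_pr.P2.Case2
import Pool.Agent.Lib.MP_4ddf81_pr.P2.CaseP
import Pool.Agent.Lib.MP_4ddf81_pr.P2.Clif3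
import Pool.Agent.Lib.MP_4ddf81_pr.P2.Cls
import Pool.Agent.Lib.MP_4ddf81_pr.P2.Cnt
import Pool.Agent.Lib.MP_4ddf81_pr.P2.Core
import Pool.Agent.Lib.MP_4ddf81_pr.P2.Cover
import Pool.Agent.Lib.MP_4ddf81_pr.P2.Dich
import Pool.Agent.Lib.MP_4ddf81_pr.P2.Euler
import Pool.Agent.Lib.MP_4ddf81_pr.P2.Fast
import Pool.Agent.Lib.MP_4ddf81_pr.P2.Gap
import Pool.Agent.Lib.MP_4ddf81_pr.P2.GapPt
import Pool.Agent.Lib.MP_4ddf81_pr.P2.GenP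
import Pool.Agent.Lib.MP_4ddf81_pr.P2.Greedy
import Pool.Agent.Lib.MP_4ddf81_pr.P2.High
import Pool.Agent.Lib.MP_4ddf81_pr.P2.HomP
import Pool.Agent.Lib.MP_4ddf81_pr.P2.LB1
import Pool.Agent.Lib.MP_4ddf81_pr.P2.LB2
import Pool.Agent.Lib.MP_4ddf81_pr.P2.LBasy
import Pool.Agent.Lib.MP_4ddf81_pr.P2.LBtv
import Pool.Agent.Lib.MP_4ddf81_pr.P2.LDL
import Pool.Agent.Lib.MP_4ddf81_pr.P2.LDPair
import Pool.Agent.Lib.MP_4ddf81_pr.P2.LDT2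
import Pool.Agent.Lib.MP_4ddf81_pr.P2.LDT3
import Pool.Agent.Lib.MP_4ddf81_pr.P2.LDT4
import Pool.Agent.Lib.MP_4ddf81_pr.P2.LowSum
import Pool.Agent.Lib.MP_4ddf81_pr.P2.Main2
import Pool.Agent.Lib.MP_4ddf81_pr.P2.MaxH
import Pool.Agent.Lib.MP_4ddf81_pr.P2.Mean
import Pool.Agent.Lib.MP_4ddf81_pr.P2.Mono
import Pool.Agent.Lib.MP_4ddf81_pr.P2.Occ
import Pool.Agent.Lib.MP_4ddf81_pr.P2.PermD
import Pool.Agent.Lib.MP_4ddf81_pr.P2.Phi2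
import Pool.Agent.Lib.MP_4ddf81_pr.P2.Plan
import Pool.Agent.Lib.MP_4ddf81_pr.P2.Pop2
import Pool.Agent.Lib.MP_4ddf81_pr.P2.Push
import Pool.Agent.Lib.MP_4ddf81_pr.P2.Pw
import Pool.Agent.Lib.MP_4ddf81_pr.P2.QF1
import Pool.Agent.Lib.MP_4ddf81_pr.P2.QF2
import Pool.Agent.Lib.MP_4ddf81_pr.P2.QF3
import Pool.Agent.Lib.MP_4ddf81_pr.P2.QF4
import Pool.Agent.Lib.MP_4ddf81_pr.P2.Root
import Pool.Agent.Lib.MP_4ddf81_pr.P2.SDb
import Pool.Agent.Lib.MP_4ddf81_pr.P2.SM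
import Pool.Agent.Lib.MP_4ddf81_pr.P2.Slow
import Pool.Agent.Lib.MP_4ddf81_pr.P2.Sq
import Pool.Agent.Lib.MP_4ddf81_pr.P2.Term
import Pool.Agent.Lib.MP_4ddf81_pr.P2.Trans
import Pool.Agent.Lib.MP_4ddf81_pr.P2.TransS
import Pool.Agent.Lib.MP_4ddf81_pr.P2.Transf
import Pool.Agent.Lib.MP_4ddf81_pr.P2.TypP
import Pool.Agent.Lib.MP_4ddf81_pr.P2.UBasy
import Pool.Agent.Lib.MP_4ddf81_pr.P2.UBdet
import Pool.Agent.Lib.MP_4ddf81_pr.P2.UBk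
import Pool.Agent.Lib.MP_4ddf81_pr.P2.W1D
import Pool.Agent.Lib.MP_4ddf81_pr.P2.W2D
import Pool.Agent.Lib.MP_4ddf81_pr.P2.WfB

/-!
# MP_4ddf81_pr, stage 2 : assembly
-/

namespace NilCut

theorem all_Clif3 : S_Clif3 := p_Clif3 p_Clif all_Clif2
theorem all_Pop2 : S_Pop2 := p_Pop2 all_Step all_Clif3 p_Trans
theorem all_Mono : S_Mono := p_Mono all_Pop2
theorem all_Cover : S_Cover := p_Cover all_Pop2 p_Greedy p_Sq
theorem all_QF2 : S_QF2 := p_QF2 p_QF1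
theorem all_QF3 : S_QF3 := p_QF3 p_QF1
theorem all_QF4 : S_QF4 := p_QF4 p_QF1
theorem all_Plan : S_Plan := p_Plan p_Mean
theorem all_UBdet : S_UBdet := p_UBdet all_Plan all_QF2 all_QF4
theorem all_UBk : S_UBk := p_UBk all_UBdet all_QF2
theorem all_PermD : S_PermD := p_PermD all_Loops p_Fix p_Phi all_AvTr
theorem all_W1D : S_W1D := p_W1D p_Alt all_PermD
theorem all_W2D : S_W2D := p_W2D p_Mean
theorem all_High : S_High := p_High all_W1D all_W2D p_W3 all_QF3 p_Schur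
theorem all_SDb : S_SDb := p_SDb p_Sq
theorem all_GenP : S_GenP := p_GenP p_HomP p_MaxH
theorem all_Gap : S_Gap := p_Gap all_GenP p_GapPt p_Case1 p_Case2 p_Root p_CaseP p_Mean p_Sq
theorem all_Term : S_Term := p_Term p_AbSub p_Core
theorem all_B1b : S_B1b := p_B1b p_Dual2
theorem all_B1c : S_B1c := p_B1c p_Phi2 p_Core
theorem all_B1 : S_B1 := p_B1 p_B1a all_B1b all_B1c
theorem all_Transf : S_Transf := p_Transf p_Euler p_Cnt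
theorem all_TransS : S_TransS := p_TransS all_Transf p_Cnt
theorem all_Cls : S_Cls := p_Cls p_Pw
theorem all_TypP : S_TypP := p_TypP p_Occ all_TransS p_LDT2 p_LDT3 p_LDT4 p_Pw all_Cls
theorem all_SM : S_SM := p_SM all_TransS p_LDPair p_Pw all_Cls p_Cnt
theorem all_LowSum : S_LowSum := p_LowSum all_Cover all_B1 all_SM p_Cnt
theorem all_LB2 : S_LB2 := p_LB2 p_LB1 all_Cls p_Cnt p_Pw
theorem all_Fast : S_Fast := p_Fast p_Wed all_Mono all_UBk all_High all_SDb p_W5 all_Gap p_Sq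
theorem all_Slow : S_Slow := p_Slow p_L1 p_T3 p_P2
theorem all_UBasy : S_UBasy := p_UBasy p_Wed all_Mono all_UBk all_High all_SDb p_W5 all_Gap p_T1
  all_TypP p_Push all_LowSum p_WfB
theorem all_LBasy : S_LBasy := p_LBasy p_WfB p_Push p_Occ all_TransS p_LDL p_Pw all_Cls all_LB2
  p_LBtv p_P1 p_P2
theorem all_Dich : S_Dich := p_Dich all_Term all_UBasy all_LBasy
theorem all_Main2 : S_Main2 := p_Main2 all_Main p_Anti all_T2 p_P1 all_Dich all_Fast all_Slow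

end NilCut
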