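import Pool.Agent.Lib.MP_4ddf81_pr.Final2
import Pool.Agent.Lib.MP_4ddf81_pr.P3.BadC
import Pool.Agent.Lib.MP_4ddf81_pr.P3.Big
import Pool.Agent.Lib.MP_4ddf81_pr.P3.CFg
import Pool.Agent.Lib.MP_4ddf81_pr.P3.ClsN
import Pool.Agent.Lib.MP_4ddf81_pr.P3.Compl
import Pool.Agent.Lib.MP_4ddf81_pr.P3.DPt
import Pool.Agent.Lib.MP_4ddf81_pr.P3.EQ
import Pool.Agent.Lib.MP_4ddf81_pr.P3.Edist
import Pool.Agent.Lib.MP_4ddf81_pr.P3.EnL
import Pool.Agent.Lib.MP_4ddf81_pr.P3.FinC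
import Pool.Agent.Lib.MP_4ddf81_pr.P3.Full
import Pool.Agent.Lib.MP_4ddf81_pr.P3.HoC
import Pool.Agent.Lib.MP_4ddf81_pr.P3.Inv
import Pool.Agent.Lib.MP_4ddf81_pr.P3.Kid
import Pool.Agent.Lib.MP_4ddf81_pr.P3.LB3
import Pool.Agent.Lib.MP_4ddf81_pr.P3.LTyp
import Pool.Agent.Lib.MP_4ddf81_pr.P3.LamE
import Pool.Agent.Lib.MP_4ddf81_pr.P3.Lext
import Pool.Agent.Lib.MP_4ddf81_pr.P3.Low3
import Pool.Agent.Lib.MP_4ddf81_pr.P3.MPath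
import Pool.Agent.Lib.MP_4ddf81_pr.P3.MSi
import Pool.Agent.Lib.MP_4ddf81_pr.P3.Main3
import Pool.Agent.Lib.MP_4ddf81_pr.P3.MaxNL
import Pool.Agent.Lib.MP_4ddf81_pr.P3.MuA
import Pool.Agent.Lib.MP_4ddf81_pr.P3.MuB
import Pool.Agent.Lib.MP_4ddf81_pr.P3.MuC
import Pool.Agent.Lib.MP_4ddf81_pr.P3.MuK
import Pool.Agent.Lib.MP_4ddf81_pr.P3.MuR
import Pool.Agent.Lib.MP_4ddf81_pr.P3.NCb
import Pool.Agent.Lib.MP_4ddf81_pr.P3.NCp
import Pool.Agent.Lib.MP_4ddf81_pr.P3.NCs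
import Pool.Agent.Lib.MP_4ddf81_pr.P3.Ninv
import Pool.Agent.Lib.MP_4ddf81_pr.P3.NonL
import Pool.Agent.Lib.MP_4ddf81_pr.P3.NormC
import Pool.Agent.Lib.MP_4ddf81_pr.P3.PathE
import Pool.Agent.Lib.MP_4ddf81_pr.P3.PathP
import Pool.Agent.Lib.MP_4ddf81_pr.P3.PathV
import Pool.Agent.Lib.MP_4ddf81_pr.P3.PrExp
import Pool.Agent.Lib.MP_4ddf81_pr.P3.PrP
import Pool.Agent.Lib.MP_4ddf81_pr.P3.QF5
import Pool.Agent.Lib.MP_4ddf81_pr.P3.Rank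
import Pool.Agent.Lib.MP_4ddf81_pr.P3.Rate
import Pool.Agent.Lib.MP_4ddf81_pr.P3.Sat
import Pool.Agent.Lib.MP_4ddf81_pr.P3.StInf
import Pool.Agent.Lib.MP_4ddf81_pr.P3.StUp
import Pool.Agent.Lib.MP_4ddf81_pr.P3.Star
import Pool.Agent.Lib.MP_4ddf81_pr.P3.Struct
import Pool.Agent.Lib.MP_4ddf81_pr.P3.T4
import Pool.Agent.Lib.MP_4ddf81_pr.P3.Trs
import Pool.Agent.Lib.MP_4ddf81_pr.P3.TyN
import Pool.Agent.Lib.MP_4ddf81_pr.P3.UB3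
import Pool.Agent.Lib.MP_4ddf81_pr.P3.Uni
import Pool.Agent.Lib.MP_4ddf81_pr.P3.Up3

/-!
# MP_4ddf81_pr, stage 3 : assembly
-/

namespace NilCut

theorem all_QF5 : S_QF5 := p_QF5 p_QF1
theorem all_Kid : S_Kid := p_Kid p_FinC
theorem all_UB3 : S_UB3 := p_UB3 all_Plan all_QF2 all_QF5 all_Kid p_Sq
theorem all_Inv : S_Inv := p_Inv p_Core
theorem all_Ninv : S_Ninv := p_Ninv p_QF1
theorem all_Struct : S_Struct := p_Struct p_DPt all_Inv all_Ninv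
theorem all_Big : S_Big := p_Big p_DPt p_Case2 p_Root p_CaseP
theorem all_MuC : S_MuC := p_MuC p_Wed all_Cover p_MuA p_MuB p_FinC
theorem all_MuK : S_MuK := p_MuK all_MuC p_FinC
theorem all_Lext : S_Lext := p_Lext p_NormC p_FinC
theorem all_BadC : S_BadC := p_BadC p_NormC p_Compl p_MuR all_Lext
theorem all_NonL : S_NonL := p_NonL p_MaxNL all_BadC all_MuK p_PrP
theorem all_Uni : S_Uni := p_Uni p_DPt all_Inv p_Full
theorem all_LamE : S_LamE := p_LamE all_QF5 p_Edist p_QF1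
theorem all_NCp : S_NCp := p_NCp p_Compl
theorem all_Star : S_Star := p_Star p_NCb p_CFg p_EnL
theorem all_StInf : S_StInf := p_StInf all_Star p_EnL
theorem all_PathV : S_PathV := p_PathV p_PathE p_PathP
theorem all_MPath : S_MPath := p_MPath p_PrExp
theorem all_LTyp : S_LTyp := p_LTyp p_Trs p_EQ all_PathV all_MPath
theorem all_ClsN : S_ClsN := p_ClsN p_CFg p_HoC
theorem all_MSi : S_MSi := p_MSi p_FinC
theorem all_LB3 : S_LB3 := p_LB3 p_LB1 all_ClsN all_MSi p_CFg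
theorem all_Rank : S_Rank := p_Rank p_MaxH p_FinC
theorem all_Up3 : S_Up3 := p_Up3 p_Wed all_Mono all_UB3 all_High all_SDb p_W5 all_Big
  all_Struct all_NonL p_EQ p_Push p_Full all_Uni p_Rate all_LamE p_NCs p_NCb p_TyN p_CFg p_EnL
  p_StUp all_Star p_FinC p_T4 p_P1 all_QF2 p_Sq
theorem all_Low3 : S_Low3 := p_Low3 all_Star p_NCb all_NCp p_CFg p_EnL all_LTyp all_LB3 p_LBtv
  p_Push p_P1 p_P2
theorem all_Sat : S_Sat := p_Sat all_Up3 all_Low3 all_Term all_StInf all_Star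
theorem all_Main3 : S_Main3 := p_Main3 all_Main p_Anti all_T2 p_P1 all_Dich all_Fast all_Slow
  all_Sat all_Rank

end NilCut
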