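import Pool.Agent.Lib.MP_4ddf81_pr.Defs

/-!
# MP_4ddf81_pr : statements of the pieces

Every piece is a `Prop`; the file `P/<Name>.lean` proves `theorem p_<Name> : S_<Name>`
(possibly with other statements as hypotheses, as given in the requests).
-/

namespace NilCut

open Filter Topology
open scoped commutatorElement

/-! ## Block R : representation theory of a finite group and permuted words -/

/-- Wedderburn: decomposition of the regular character. -/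
def S_Wed : Prop := ∀ (G : Type) [Group G] [Finite G], Nonempty (Planch G)

/-- Schur orthogonality of matrix entries. -/
def S_Schur : Prop := ∀ (G : Type) [Group G] [Fintype G] (d : ℕ)
  (ρ : G →* Matrix (Fin d) (Fin d) ℂ), IsIrr ρ →
  ∀ a b c e : Fin d,
    ∑ z : G, ρ z a b * ρ z⁻¹ c e = if a = e ∧ b = c then (Nat.card G : ℂ) / (d : ℂ) else 0

/-- The trace of a group element is at most the degree. -/
def S_Tr : Prop := ∀ (G : Type) [Group G] [Finite G] (d : ℕ)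
  (ρ : G →* Matrix (Fin d) (Fin d) ℂ) (g : G), ‖(ρ g).trace‖ ≤ (d : ℝ)

/-- Index loops: a product of entries along a permutation. -/
def S_Loops : Prop := ∀ (G : Type) [Group G] [Finite G] (d : ℕ)
  (ρ : G →* Matrix (Fin d) (Fin d) ℂ) (m : ℕ) (φ : Equiv.Perm (Fin m)) (g : Fin m → G),
  ‖∑ p : Fin m → Fin d, ∏ a, ρ (g a) (p a) (p (φ a))‖ ≤ (fixN d φ : ℝ)

/-- Burnside count of the colourings fixed by permutations. -/
def S_Fix : Prop := ∀ m d : ℕ,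
  ∑ φ : Equiv.Perm (Fin m), fixN d φ = ∏ j ∈ Finset.range m, (d + j)

/-- The map `σ ↦ φ_σ` is injective. -/
def S_Phi : Prop := ∀ m : ℕ,
  Function.Injective (phiP : Equiv.Perm (Fin m) → Equiv.Perm (Fin (m + 1)))

/-- Entries of an alternating product of matrices. -/
def S_Expand : Prop := ∀ (d m : ℕ) (C : Fin (m + 1) → Matrix (Fin d) (Fin d) ℂ)
  (X : Fin m → Matrix (Fin d) (Fin d) ℂ) (x y : Fin d),
  (C 0 * (List.ofFn fun l : Fin m => X l * C l.succ).prod) x y =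
    ∑ a : Fin (m + 1) → Fin d, ∑ b : Fin (m + 1) → Fin d,
      if a 0 = x ∧ b (Fin.last m) = y then
        (∏ i, C i (a i) (b i)) * ∏ l : Fin m, X l (b l.castSucc) (a l.succ)
      else 0

/-- The average of the character over the variables of a permuted word. -/
def S_AvTr : Prop := ∀ (G : Type) [Group G] [Fintype G] (d : ℕ)
  (ρ : G →* Matrix (Fin d) (Fin d) ℂ), IsIrr ρ →
  ∀ (m : ℕ) (c : Fin (m + 1) → G) (σ : Equiv.Perm (Fin m)),
    ∑ z : Fin m → G, (ρ (altW c z * (altW c (z ∘ σ))⁻¹)).trace =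
      ((Nat.card G : ℂ) / (d : ℂ)) ^ m *
        ∑ p : Fin (m + 1) → Fin d,
          ∏ i, ρ (c i * (c ((casP σ)⁻¹ i))⁻¹) (p i) (p (phiP σ i))

/-- The sum over all permutations of the coincidence probabilities. -/
def S_Perm : Prop := ∀ (G : Type) [Group G] [Fintype G] (P : Planch G) (m : ℕ)
  (c : Fin (m + 1) → G),
  ∑ σ : Equiv.Perm (Fin m), (Nat.card G : ℝ) *
      (Nat.card {z : Fin m → G // altW c z = altW c (z ∘ σ)} : ℝ) ≤
    (Nat.card G : ℝ) ^ m * P.S m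

/-- Splitting of the sum `P.S m` according to the degrees. -/
def S_Sdeg : Prop := ∀ (G : Type) [Group G] [Fintype G] (P : Planch G) (m : ℕ),
  P.S m ≤ (Nat.card G : ℝ) * 2 ^ m +
    ∑ D ∈ Finset.Icc 1 m, (D : ℝ) ^ 2 * (Nat.card {i : P.ι // P.d i = D} : ℝ) *
      (2 * (m : ℝ) / (D : ℝ)) ^ m

/-! ## Block W : words with the same skeleton -/

/-- A product with marked variable positions is an alternating product. -/
def S_Alt : Prop := ∀ (G : Type) [Group G] (n m : ℕ) (e : Fin m ↪o Fin n) (y : Fin n → G),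
  ∃ c : Fin (m + 1) → G, ∀ x : Fin n → G, (∀ i, i ∉ Set.range e → x i = y i) →
    (List.ofFn x).prod = altW c (x ∘ e)

open Classical in
/-- Permutations of the unique letters of a word. -/
def S_W1 : Prop := ∀ (G : Type) [Group G] [Fintype G] (P : Planch G) (k n : ℕ)
  (w : Fin n → Fin k),
  ∑ σ ∈ (Finset.univ.filter fun σ : Equiv.Perm (Fin n) => ∀ i, i ∉ uq w → σ i = i),
      (Nat.card G : ℝ) * (Nat.card {Z : Fin k → G // wprod Z w = wprod Z (w ∘ σ)} : ℝ) ≤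
    (Nat.card G : ℝ) ^ k * P.S (uq w).card

/-- Two words are independent if one of them has a unique letter absent from the other. -/
def S_W2 : Prop := ∀ (G : Type) [Group G] [Fintype G] (k n : ℕ) (w w' : Fin n → Fin k)
  (i : Fin n), uniq w i → (∀ j, w' j ≠ w i) →
  (Nat.card G : ℝ) * (Nat.card {Z : Fin k → G // wprod Z w = wprod Z w'} : ℝ) =
    (Nat.card G : ℝ) ^ k

/-- Size of the classes of words with the same skeleton. -/
def S_W3 : Prop := ∀ (k n : ℕ) (w : Fin n → Fin k), n ≤ k →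
  (k - n) ^ (uq w).card ≤ Nat.card {w' : Fin n → Fin k // sameSk w w'}

/-- Second moment for one skeleton. -/
def S_W4 : Prop := ∀ (G : Type) [Group G] [Fintype G] (P : Planch G) (k n : ℕ)
  (w : Fin n → Fin k), n < k →
  ∑ Z : Fin k → G, ∑ g : G,
      |(Nat.card {w' : Fin n → Fin k // sameSk w w' ∧ wprod Z w' = g} : ℝ) -
        (Nat.card {w' : Fin n → Fin k // sameSk w w'} : ℝ) / (Nat.card G : ℝ)| ≤
    (Nat.card G : ℝ) ^ k * (Nat.card {w' : Fin n → Fin k // sameSk w w'} : ℝ) *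
      Real.sqrt (P.S (uq w).card / ((k : ℝ) - (n : ℝ)) ^ (uq w).card)

/-- Few words have many positions with repeated letters. -/
def S_W5 : Prop := ∀ k n r : ℕ, 0 < k →
  (Nat.card {w : Fin n → Fin k // r < n - (uq w).card} : ℝ) * ((r : ℝ) + 1) ≤
    (k : ℝ) ^ n * ((n : ℝ) ^ 2 / (k : ℝ))

/-- The expected total variation distance after `n` jumps. -/
def S_W : Prop := ∀ (G : Type) [Group G] [Fintype G] (P : Planch G) (k n r : ℕ) (b : ℝ),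
  n < k → 0 ≤ b →
  (∀ m, n ≤ m + r → m ≤ n → P.S m ≤ b ^ 2 * ((k : ℝ) - (n : ℝ)) ^ m) →
  ∑ Z : Fin k → G, tvStep Z n ≤
    (Nat.card G : ℝ) ^ k * ((n : ℝ) ^ 2 / ((k : ℝ) * ((r : ℝ) + 1)) + b / 2)

/-! ## Block T : continuous time -/

/-- The total variation distance decreases with the number of jumps. -/
def S_T1 : Prop := ∀ (G : Type) [Group G] [Fintype G] (k : ℕ) (Z : Fin k → G), 0 < k →
  Antitone (tvStep Z)

/-- Upper bound for the distance in continuous time. -/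
def S_T2 : Prop := ∀ (G : Type) [Group G] [Fintype G] (k : ℕ) (Z : Fin k → G) (t : ℝ) (n : ℕ),
  0 < k → 0 ≤ t → dTV Z t ≤ ∑ i ∈ Finset.range n, pois t i + tvStep Z n

/-- Lower bound for the distance in continuous time. -/
def S_T3 : Prop := ∀ (G : Type) [Group G] [Fintype G] (k : ℕ) (Z : Fin k → G) (t : ℝ) (n : ℕ),
  0 < k → 0 ≤ t →
  ∑ i ∈ Finset.range (n + 1), pois t i - (Nat.card (reach Z n) : ℝ) / (Nat.card G : ℝ) ≤
    dTV Z t

/-- Lower Poisson tail. -/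
def S_P1 : Prop := ∀ (t δ : ℝ) (n : ℕ), 0 ≤ t → 0 ≤ δ → δ ≤ 1 → (n : ℝ) ≤ (1 - δ) * t + 1 →
  ∑ i ∈ Finset.range n, pois t i ≤ Real.exp (-(δ ^ 2 * t / 4))

/-- Upper Poisson tail. -/
def S_P2 : Prop := ∀ (t δ : ℝ) (n : ℕ), 0 ≤ t → 0 ≤ δ → δ ≤ 1 → (1 + δ) * t ≤ (n : ℝ) + 1 →
  1 - Real.exp (-(δ ^ 2 * t / 8)) ≤ ∑ i ∈ Finset.range (n + 1), pois t i

/-! ## Block L : the number of the reached elements -/

/-- Reached elements and the Abelianisation of a subgroup. -/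
def S_L1 : Prop := ∀ (G : Type) [Group G] [Fintype G] (k : ℕ) (Z : Fin k → G) (n : ℕ)
  (H : Subgroup G),
  Nat.card (reach Z n) * Nat.card (Abelianization H) ≤
    Nat.card G * Nat.choose (k * H.index + n) n

/-- Number of words. -/
def S_L2 : Prop := ∀ (G : Type) [Group G] [Fintype G] (k : ℕ) (Z : Fin k → G) (n : ℕ), 2 ≤ k →
  Nat.card (reach Z n) ≤ 2 * k ^ n

/-! ## Block N : irreducible characters of a nilpotent group -/

/-- The bimultiplicative form of a character. -/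
def S_Form : Prop := ∀ (G : Type) [Group G] (j : ℕ) (ω : lc G (j + 1) →* ℂˣ), Cen ω →
  ∃ β : lc G j →* (G →* ℂˣ), ∀ g x, β g x = ω (brk g x)

/-- Duality, first form. -/
def S_Dual1 : Prop := ∀ (G : Type) [Group G] [Finite G] (Y : Subgroup (G →* ℂˣ)),
  Finite Y ∧ (ann (Y : Set (G →* ℂˣ))).index = Nat.card Y ∧
    ∀ l : G →* ℂˣ, (∀ x ∈ ann (Y : Set (G →* ℂˣ)), l x = 1) → l ∈ Y

/-- Duality, second form. -/
def S_Dual2 : Prop := ∀ (G : Type) [Group G] [Finite G] (A : Subgroup G),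
  commutator G ≤ A →
  (∀ x, x ∉ A → ∃ l : G →* ℂˣ, (∀ a ∈ A, l a = 1) ∧ l x ≠ 1) ∧
    Nat.card {l : G →* ℂˣ // ∀ a ∈ A, l a = 1} = A.index

/-- The number of the characters of `lc G i` trivial on `lc G (i+1)`. -/
def S_CenCount : Prop := ∀ (G : Type) [Group G] [Finite G] (i : ℕ),
  Nat.card {ξ : lc G i →* ℂˣ // Cen ξ} = Lsz G i

/-- The product of the orders of the factors. -/
def S_Lprod : Prop := ∀ (G : Type) [Group G] [Finite G] (j : ℕ),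
  ∏ i ∈ Finset.range j, Lsz G i ≤ Nat.card G

/-- The number of the characters `x ↦ ξ [m, x]` at one level. -/
def S_Thin : Prop := ∀ (G : Type) [Group G] [Finite G] (i : ℕ),
  Set.ncard {l : G →* ℂˣ | ∃ (m : lc G i) (ξ : lc G (i + 1) →* ℂˣ), Cen ξ ∧
    ∀ x, l x = ξ (brk m x)} ≤ Lsz G i * Lsz G (i + 1)

/-- Multilinearity of `h ↦ ξ [h 0, …, h j]`. -/
def S_Mult : Prop := ∀ (G : Type) [Group G] (j : ℕ) (ξ : lc G j →* ℂˣ), Cen ξ →
  ∀ i ≤ j, ∀ h : ℕ → G, ∃ l : G →* ℂˣ, ∀ g, l g = ξ (lncE (Function.update h i g) j)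

/-- Left normed commutators generate. -/
def S_Gen : Prop := ∀ (G : Type) [Group G] (j : ℕ) (ξ : lc G j →* ℂˣ), Cen ξ → ξ ≠ 1 →
  ∃ h : ℕ → G, ξ (lncE h j) ≠ 1

/-- Three subgroups. -/
def S_Three : Prop := ∀ (G : Type) [Group G] (j : ℕ) (ω : lc G (j + 1) →* ℂˣ), Cen ω →
  ∀ R : Subgroup G, (∀ (g : lc G j), ∀ x ∈ R, ω (brk g x) = 1) →
  ∀ h : ℕ → G, (∀ i ≤ j, h i ∈ R) → ∀ x, ω (brk (lncE h j) x) = 1

/-- Replacing the arguments at thin positions. -/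
def S_Repl : Prop := ∀ (G : Type) [Group G] [Finite G] (j : ℕ) (ξ : lc G j →* ℂˣ), Cen ξ →
  ∀ (R : Subgroup G) (th : ℕ → Prop), th 0 →
  (∀ i, i < j → ¬ th (i + 1) → ∀ (m : lc G i) (ζ : lc G (i + 1) →* ℂˣ), Cen ζ →
    (∀ x ∈ R, ζ (brk m x) = 1) → ∀ x, ζ (brk m x) = 1) →
  (∀ h : ℕ → G, (∀ i ≤ j, h i ∈ R) → ξ (lncE h j) = 1) →
  ∀ h : ℕ → G, (∀ i ≤ j, th i → h i ∈ R) → ξ (lncE h j) = 1

/-- A multilinear form which vanishes on independent subgroups is trivial. -/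
def S_Indep : Prop := ∀ (G : Type) [Group G] (C : Type) [CommGroup C] (s : Finset ℕ)
  (F : (ℕ → G) → C),
  (∀ i ∈ s, ∀ h : ℕ → G, ∃ l : G →* C, ∀ g, l g = F (Function.update h i g)) →
  ∀ R : ℕ → Subgroup G,
  (∀ m ≤ s.card, R m ⊔ (⨅ l ∈ Finset.range m, R l) = ⊤) →
  (∀ m ≤ s.card, ∀ h : ℕ → G, (∀ i ∈ s, h i ∈ R m) → F h = 1) →
  ∀ h, F h = 1

/-- The popular character for a family of right kernels. -/
def S_Ker : Prop := ∀ (G : Type) [Group G] [Finite G] (j : ℕ) (ξ : lc G j →* ℂˣ), Cen ξ →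
  ξ ≠ 1 → ∀ (ι : Type) [Fintype ι] (Y : ι → Subgroup (G →* ℂˣ)) (Q E t P : ℕ), 1 ≤ E →
  (Nat.card G) ^ 2 < E ^ t → (∀ i, Nat.card (Y i) ≤ Q) →
  (∀ l : G →* ℂˣ, l ≠ 1 → Nat.card {i // l ∈ Y i} ≤ P) →
  (∀ i, ∀ h : ℕ → G, (∀ a ≤ j, h a ∈ ann (Y i : Set (G →* ℂˣ))) → ξ (lncE h j) = 1) →
  Nat.card ι ≤ (j * E + Q ^ t) * P

/-- The growth lemma. -/
def S_Grow : Prop := ∀ (A Y : Type) [Group A] [Finite A] [CommGroup Y] (ι : Type) [Fintype ι]
  (β : ι → (A →* Y)) (Hs : Finset (A →* Y)) (Q m X P : ℕ), 1 ∈ Hs →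
  (∀ i, ∀ h ∈ Hs, β i * h ∈ Hs) → Hs.card ≤ X → (∀ i, Nat.card (β i).range ≤ Q) →
  (∀ l : Y, l ≠ 1 → Nat.card {i // l ∈ (β i).range} ≤ P) →
  (Nat.card ι) ^ m ≤ 2 ^ m * X * (Q ^ (2 * m) * P) ^ m ∨
    ∃ J : Finset ι, J.card < m ∧
      Nat.card ι ≤ 2 * Nat.card {i // ∀ a : A, (∀ i' ∈ J, β i' a = 1) → β i a = 1}

/-- The popular character theorem. -/
def S_Pop : Prop := ∀ (G : Type) [Group G] [Finite G] (j : ℕ) (ι : Type) [Fintype ι]
  (ω : ι → (lc G (j + 1) →* ℂˣ)) (Q m E t P : ℕ), 1 ≤ E → (Nat.card G) ^ 2 < E ^ t →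
  (∀ i, Cen (ω i)) → (∀ i, ∃ l ∈ Yset (ω i), l ≠ 1) → (∀ i, (Yset (ω i)).ncard ≤ Q) →
  (∀ l : G →* ℂˣ, l ≠ 1 → Nat.card {i // l ∈ Yset (ω i)} ≤ P) →
  (Nat.card ι) ^ m ≤ 2 ^ m * Nat.card G * (Q ^ (2 * m) * P) ^ m ∨
    Nat.card ι ≤ 2 * Q ^ m * (j * E + Q ^ t) * P

/-- The level of an irreducible character of a nilpotent group. -/
def S_Lev : Prop := ∀ (G : Type) [Group G] [Finite G], Group.IsNilpotent G →
  ∀ (D : ℕ), 2 ≤ D → ∀ χ : G → ℂ, IsIrrChar G D χ →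
  ∃ j : ℕ, 2 ^ (j + 1) ≤ Nat.card G ∧ ∃ ω : lc G (j + 1) →* ℂˣ, Cen ω ∧
    (Yset ω).ncard ≤ D ^ 2 ∧ (∃ l ∈ Yset ω, l ≠ 1) ∧ ∀ l ∈ Yset ω, Twist G D χ l

/-- Clifford theory for a subgroup of prime index. -/
def S_Clif : Prop := ∀ (G : Type) [Group G] [Fintype G] (D q : ℕ), q.Prime → 0 < D →
  ∀ (ρ : G →* Matrix (Fin D) (Fin D) ℂ), IsIrr ρ → ∀ l : G →* ℂˣ, l ≠ 1 → l ^ q = 1 →
  ∀ g : G, (∀ x, ρ g * ρ x = ((l x : ℂˣ) : ℂ) • (ρ x * ρ g)) →
  q ∣ D ∧ ∃ ρ' : l.ker →* Matrix (Fin (D / q)) (Fin (D / q)) ℂ, IsIrr ρ' ∧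
    ∀ x : G, (Nat.card l.ker : ℂ) * (ρ x).trace =
      ∑ y : G, (if h : y * x * y⁻¹ ∈ l.ker then (ρ' ⟨y * x * y⁻¹, h⟩).trace else 0)

/-- Restriction to the kernel of a twist is injective on characters. -/
def S_Clif2 : Prop := ∀ (G : Type) [Group G] [Finite G] (D q : ℕ), q.Prime → 0 < D →
  ∀ l : G →* ℂˣ, l ≠ 1 → l ^ q = 1 → l.ker.index = q ∧
  ∀ F : Finset (G → ℂ), F.Nonempty → (∀ χ ∈ F, Twist G D χ l) →
  q ∣ D ∧ ∃ F' : Finset (l.ker → ℂ), F'.card = F.card ∧ ∀ χ ∈ F', IsIrrChar l.ker (D / q) χ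

/-- Linear characters. -/
def S_Lin : Prop := ∀ (G : Type) [Group G] [Finite G] (F : Finset (G → ℂ)),
  (∀ χ ∈ F, IsIrrChar G 1 χ) → F.card ≤ Nat.card (Abelianization (⊤ : Subgroup G))

/-- One step: a linear character of prime order in many of the sets. -/
def S_Step : Prop := ∀ (G : Type) [Group G] [Finite G], Group.IsNilpotent G →
  ∀ (D : ℕ), 2 ≤ D → ∀ F : Finset (G → ℂ), F.Nonempty → (∀ χ ∈ F, IsIrrChar G D χ) →
  ∃ (q : ℕ) (l : G →* ℂˣ) (F₁ : Finset (G → ℂ)), q.Prime ∧ l ≠ 1 ∧ l ^ q = 1 ∧ F₁ ⊆ F ∧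
    F₁.Nonempty ∧ (∀ χ ∈ F₁, Twist G D χ l) ∧
    (F.card : ℝ) ≤ Real.exp ((8 * Real.sqrt (Real.log (Nat.card G)) + 7) * Real.log D) *
      (F₁.card : ℝ)

/-- The count of the irreducible characters of a nilpotent group. -/
def S_N : Prop := ∀ (G : Type) [Group G] [Finite G], Group.IsNilpotent G →
  ∀ (D : ℕ), 1 ≤ D → ∀ F : Finset (G → ℂ), F.Nonempty → (∀ χ ∈ F, IsIrrChar G D χ) →
  ∃ H : Subgroup G, H.index = D ∧
    (F.card : ℝ) ≤ Real.exp (12 * (1 + Real.sqrt (Real.log (Nat.card G))) *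
      Real.log D ^ 2) * (Nat.card (Abelianization H) : ℝ)

/-! ## Block A : asymptotics and assembly -/

/-- An admissible time exists and is small. -/
def S_Exist : Prop := ∀ (G : Type) [Group G] [Fintype G] (k : ℕ),
  2 ≤ Real.log (Nat.card G) → Real.exp 2 ≤ (k : ℝ) / Real.log (Nat.card G) →
  good G k ⌈Real.log (Nat.card G) / Real.log ((k : ℝ) / Real.log (Nat.card G))⌉₊

/-- The bound for `P.S m` for a nilpotent group. -/
def S_SBound : Prop := ∀ (G : Type) [Group G] [Fintype G], Group.IsNilpotent G →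
  ∀ (P : Planch G) (k N n m : ℕ) (ε : ℝ), good G k N → 0 ≤ ε → 2 ≤ N → 2 * n ≤ k →
  n ≤ 2 * N → N ≤ k → m ≤ n → (1 + ε) * (N : ℝ) ≤ (m : ℝ) →
  P.S m ≤ ((64 : ℝ) ^ N * ((N : ℝ) / (k : ℝ)) ^ (ε * (N : ℝ)) *
    (1 + (2 * (N : ℝ)) ^ 3 * Real.exp (12 * (1 + Real.sqrt (Real.log (Nat.card G))) *
      Real.log (2 * (N : ℝ)) ^ 2))) * ((k : ℝ) - (n : ℝ)) ^ m

/-- The analytic limit for the upper bound. -/
def S_LimUp : Prop := ∀ (L : ℕ → ℝ) (k N : ℕ → ℕ) (ε : ℝ), 0 < ε → Tendsto L atTop atTop →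
  Tendsto (fun n => (N n : ℝ)) atTop atTop →
  Tendsto (fun n => (k n : ℝ) / (N n : ℝ)) atTop atTop →
  (∀ᶠ n in atTop, L n ≤ (N n : ℝ) * Real.log (k n)) →
  (∀ᶠ n in atTop, L n ^ 2 ≤ (k n : ℝ) → (N n : ℝ) ≤ 2 * L n) →
  Tendsto (fun n => (64 : ℝ) ^ (N n) * ((N n : ℝ) / (k n : ℝ)) ^ (ε * (N n : ℝ)) *
    (1 + (2 * (N n : ℝ)) ^ 3 * Real.exp (12 * (1 + Real.sqrt (L n)) *
      Real.log (2 * (N n : ℝ)) ^ 2))) atTop (𝓝 0)

/-- The number of reached elements before the cutoff time. -/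
def S_LowIneq : Prop := ∀ (G : Type) [Group G] [Fintype G] (k N n : ℕ) (Z : Fin k → G),
  2 ≤ k → N ≤ k → 2 ≤ N → n + 1 ≤ N → ¬ good G k (N - 1) →
  (Nat.card (reach Z n) : ℝ) / (Nat.card G : ℝ) ≤
    2 * 16 ^ N * ((N : ℝ) / (k : ℝ)) ^ (N - 1 - n)

/-- The analytic limit for the lower bound. -/
def S_LimLow : Prop := ∀ (k N : ℕ → ℕ) (ε : ℝ), 0 < ε → ε < 1 →
  Tendsto (fun n => (N n : ℝ)) atTop atTop →
  Tendsto (fun n => (k n : ℝ) / (N n : ℝ)) atTop atTop →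
  Tendsto (fun n => 2 * (16 : ℝ) ^ (N n) *
    ((N n : ℝ) / (k n : ℝ)) ^ (N n - 1 - ⌊(1 - ε / 2) * (N n : ℝ)⌋₊)) atTop (𝓝 0)

/-- The simple hypotheses on a sequence (except nilpotency). -/
structure Hyp (G : ℕ → Type) [∀ n, Group (G n)] [∀ n, Fintype (G n)] (k : ℕ → ℕ) : Prop where
  card : Tendsto (fun n => (Nat.card (G n) : ℝ)) atTop atTop
  big : Tendsto (fun n => (k n : ℝ) / Real.log (Nat.card (G n))) atTop atTop
  small : Tendsto (fun n => Real.log (k n) / Real.log (Nat.card (G n))) atTop (𝓝 0)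

/-- The general hypotheses on a sequence (except nilpotency): the cutoff time is much smaller
than the number of generators. -/
structure Reg (G : ℕ → Type) [∀ n, Group (G n)] [∀ n, Fintype (G n)] (k : ℕ → ℕ) : Prop where
  card : Tendsto (fun n => (Nat.card (G n) : ℝ)) atTop atTop
  small : Tendsto (fun n => Real.log (k n) / Real.log (Nat.card (G n))) atTop (𝓝 0)
  adm : ∀ᶠ n in atTop, good (G n) (k n) (nStar (G n) (k n))
  sub : Tendsto (fun n => (k n : ℝ) / (nStar (G n) (k n) : ℝ)) atTop atTop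

/-- The simple hypotheses imply the general ones. -/
def S_Seq : Prop := ∀ (G : ℕ → Type) [∀ n, Group (G n)] [∀ n, Fintype (G n)] (k : ℕ → ℕ),
  Hyp G k → Reg G k

/-- Facts on the cutoff times of a sequence. -/
def S_Reg : Prop := ∀ (G : ℕ → Type) [∀ n, Group (G n)] [∀ n, Fintype (G n)] (k : ℕ → ℕ),
  Reg G k →
  Tendsto (fun n => (nStar (G n) (k n) : ℝ)) atTop atTop ∧
  (∀ᶠ n in atTop, Real.log (Nat.card (G n)) ≤ (nStar (G n) (k n) : ℝ) * Real.log (k n)) ∧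
  (∀ᶠ n in atTop, Real.log (Nat.card (G n)) ^ 2 ≤ (k n : ℝ) →
    (nStar (G n) (k n) : ℝ) ≤ 2 * Real.log (Nat.card (G n)))

/-- The discrete time upper bound. -/
def S_Up : Prop := ∀ (G : ℕ → Type) [∀ n, Group (G n)] [∀ n, Fintype (G n)] (k : ℕ → ℕ),
  (∀ n, Group.IsNilpotent (G n)) → Reg G k → ∀ ε : ℝ, 0 < ε → ε ≤ 1 →
  Tendsto (fun n => (∑ Z : Fin (k n) → G n,
    tvStep Z ⌈(1 + ε / 2) * (nStar (G n) (k n) : ℝ)⌉₊) / (Nat.card (G n) : ℝ) ^ (k n))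
    atTop (𝓝 0)

/-- The discrete time lower bound. -/
def S_Low : Prop := ∀ (G : ℕ → Type) [∀ n, Group (G n)] [∀ n, Fintype (G n)] (k : ℕ → ℕ),
  Reg G k → ∀ ε : ℝ, 0 < ε → ε < 1 → ∀ δ : ℝ, 0 < δ →
  ∀ᶠ n in atTop, ∀ Z : Fin (k n) → G n,
    (Nat.card (reach Z ⌊(1 - ε / 2) * (nStar (G n) (k n) : ℝ)⌋₊) : ℝ) /
      (Nat.card (G n) : ℝ) ≤ δ

/-- The theorem. -/
def S_Main : Prop := ∀ (G : ℕ → Type) [∀ n, Group (G n)] [∀ n, Fintype (G n)] (k : ℕ → ℕ),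
  (∀ n, Group.IsNilpotent (G n)) → Reg G k →
  (∀ ε : ℝ, 0 < ε → ε < 1 → ∀ δ : ℝ, 0 < δ →
    Tendsto (fun n => prob (G n) (k n) fun Z =>
      1 - δ ≤ dTV Z ((1 - ε) * (nStar (G n) (k n) : ℝ))) atTop (𝓝 1)) ∧
  (∀ ε : ℝ, 0 < ε → ∀ δ : ℝ, 0 < δ →
    Tendsto (fun n => prob (G n) (k n) fun Z =>
      dTV Z ((1 + ε) * (nStar (G n) (k n) : ℝ)) ≤ δ) atTop (𝓝 1))

end NilCut
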