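import Pool.Agent.Lib.MP_4ddf81_pr.Defs2

/-!
# MP_4ddf81_pr, stage 2 : statements of the pieces

Every piece is a `Prop`; the file `P2/<Name>.lean` proves `theorem p_<Name> : S_<Name>`
(possibly with other statements as hypotheses, as given in the requests).
-/

namespace NilCut

open Filter Topology

/-! ## Block R2 : monomial characters -/

/-- Clifford theory with the induction formula. -/
def S_Clif3 : Prop := ∀ (G : Type) [Group G] [Fintype G] (D q : ℕ), q.Prime → 0 < D →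
  ∀ l : G →* ℂˣ, l ≠ 1 → l ^ q = 1 → ∀ χ : G → ℂ, Twist G D χ l →
  l.ker.index = q ∧ q ∣ D ∧ ∃ χ' : l.ker → ℂ, IsIrrChar l.ker (D / q) χ' ∧
    ∀ x : G, (Nat.card l.ker : ℂ) * χ x =
      ∑ y : G, (if h : y * x * y⁻¹ ∈ l.ker then χ' ⟨y * x * y⁻¹, h⟩ else 0)

open Classical in
/-- Transitivity of the induction. -/
def S_Trans : Prop := ∀ (G : Type) [Group G] [Fintype G] (N : Subgroup G) [Fintype N]
  (χ : G → ℂ) (χ' : N → ℂ) (H : Subgroup N) (lam : H →* ℂˣ),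
  (∀ x : G, (Nat.card N : ℂ) * χ x =
    ∑ y : G, (if h : y * x * y⁻¹ ∈ N then χ' ⟨y * x * y⁻¹, h⟩ else 0)) →
  (∀ x, χ' x = indL H lam x) →
  (H.map N.subtype).index = H.index * N.index ∧
    ∃ lam' : (H.map N.subtype : Subgroup G) →* ℂˣ, ∀ x, χ x = indL (H.map N.subtype) lam' x

/-- A popular subgroup for a set of irreducible characters of a nilpotent group. -/
def S_Pop2 : Prop := ∀ (G : Type) [Group G] [Fintype G], Group.IsNilpotent G →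
  ∀ (D : ℕ), 1 ≤ D → ∀ F : Finset (G → ℂ), F.Nonempty → (∀ χ ∈ F, IsIrrChar G D χ) →
  ∃ (H : Subgroup G) (F₁ : Finset (G → ℂ)), H.index = D ∧ F₁ ⊆ F ∧
    (∀ χ ∈ F₁, ∃ lam : H →* ℂˣ, ∀ g, χ g = indL H lam g) ∧
    (F.card : ℝ) ≤ Real.exp (12 * (1 + Real.sqrt (Real.log (Nat.card G))) *
      Real.log D ^ 2) * (F₁.card : ℝ)

/-- The irreducible characters of a nilpotent group are monomial. -/
def S_Mono : Prop := ∀ (G : Type) [Group G] [Fintype G], Group.IsNilpotent G →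
  ∀ P : Planch G, Nonempty (Mono P)

/-- The number of the irreducible representations and the sum of the squares of the degrees. -/
def S_Sq : Prop := ∀ (G : Type) [Group G] [Fintype G] (P : Planch G),
  ∑ i, (P.d i : ℝ) ^ 2 = (Nat.card G : ℝ) ∧ (Nat.card P.ι : ℝ) ≤ (Nat.card G : ℝ)

/-- Greedy covering. -/
def S_Greedy : Prop := ∀ (α β : Type) (X : Finset α) (r : α → β → Prop) (E : ℝ), 1 ≤ E →
  (∀ F ⊆ X, F.Nonempty → ∃ (b : β) (F₁ : Finset α), F₁ ⊆ F ∧ (∀ x ∈ F₁, r x b) ∧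
    (F.card : ℝ) ≤ E * (F₁.card : ℝ)) →
  ∃ T : Finset β, (T.card : ℝ) ≤ E * (Real.log (X.card : ℝ) + 1) + 1 ∧
    ∀ x ∈ X, ∃ b ∈ T, r x b

/-- A small family of subgroups from which all the characters of small degree are induced. -/
def S_Cover : Prop := ∀ (G : Type) [Group G] [Fintype G], Group.IsNilpotent G →
  ∀ (P : Planch G) (D : ℕ), 1 ≤ D → ∃ T : Finset (Subgroup G), (∀ H ∈ T, H.index ≤ D) ∧
    (T.card : ℝ) ≤ (D : ℝ) * (Real.exp (12 * (1 + Real.sqrt (Real.log (Nat.card G))) *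
      Real.log D ^ 2) * (Real.log (Nat.card G) + 1) + 1) ∧
    ∀ i, P.d i ≤ D → ∃ H ∈ T, ∃ lam : H →* ℂˣ, ∀ g, (P.ρ i g).trace = indL H lam g

/-! ## Block Q2 : quadratic forms of measures -/

/-- The quadratic form of an induced character is a sum of squares. -/
def S_QF1 : Prop := ∀ (G : Type) [Group G] [Fintype G] (H : Subgroup G) (lam : H →* ℂˣ)
  (μ : G → ℝ), QF (indL H lam) μ =
    (1 / (Nat.card H : ℝ) ^ 2) * ∑ y : G, ∑ g : G, ‖VV H lam μ y g‖ ^ 2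

/-- Positivity and contraction. -/
def S_QF2 : Prop := ∀ (G : Type) [Group G] [Fintype G] (H : Subgroup G) (lam : H →* ℂˣ)
  (μ ν : G → ℝ), (∀ g, 0 ≤ ν g) → ∑ g, ν g ≤ 1 →
  0 ≤ QF (indL H lam) μ ∧ QF (indL H lam) (conv ν μ) ≤ QF (indL H lam) μ ∧
    QF (indL H lam) (conv μ ν) ≤ QF (indL H lam) μ

/-- Convexity. -/
def S_QF3 : Prop := ∀ (G : Type) [Group G] [Fintype G] (H : Subgroup G) (lam : H →* ℂˣ)
  (ι : Type) (s : Finset ι) (μ : ι → G → ℝ) (m : ι → ℝ), (∀ c ∈ s, 0 < m c) →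
  QF (indL H lam) (fun g => ∑ c ∈ s, μ c g) ≤
    (∑ c ∈ s, m c) * ∑ c ∈ s, QF (indL H lam) (μ c) / m c

/-- Decay by the gap. -/
def S_QF4 : Prop := ∀ (G : Type) [Group G] [Fintype G] (H : Subgroup G) (lam : H →* ℂˣ)
  (k : ℕ) (Z : Fin k → G) (c : ℝ) (n : ℕ) (μ : G → ℝ), 0 < k → 0 ≤ c → c ≤ 1 →
  Gap Z H lam c →
  QF (indL H lam) (conv (stepLaw Z n) μ) ≤ (1 - c) ^ n * QF (indL H lam) μ

/-- The characters of the nontrivial representations have mean zero. -/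
def S_Mean : Prop := ∀ (G : Type) [Group G] [Fintype G] (d : ℕ)
  (ρ : G →* Matrix (Fin d) (Fin d) ℂ), IsIrr ρ → (∃ g, (ρ g).trace ≠ 1) →
  ∑ g : G, ρ g = 0

/-- The distance to the uniform distribution in `ℓ²`. -/
def S_Plan : Prop := ∀ (G : Type) [Group G] [Fintype G] (P : Planch G) (μ : G → ℝ),
  (Nat.card G : ℝ) * ∑ g : G, (μ g - (∑ h : G, μ h) / (Nat.card G : ℝ)) ^ 2 =
    ∑ i, (open Classical in if P.nt i then
      (P.d i : ℝ) * QF (fun g => (P.ρ i g).trace) μ else 0)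

open Classical in
/-- The deterministic upper bound. -/
def S_UBdet : Prop := ∀ (G : Type) [Group G] [Fintype G] (P : Planch G) (M : Mono P)
  (k n₀ n₂ n₁ D : ℕ) (Z : Fin k → G) (A₂ : Set (Fin n₂ → Fin k)) (A₁ : Set (Fin n₁ → Fin k))
  (c : ℝ), 0 < k → 0 ≤ c → c ≤ 1 → 1 ≤ D →
  (∀ i, P.nt i → P.d i ≤ D → Gap Z (M.H i) (M.lam i) c) →
  2 * tvStep Z (n₀ + n₂ + n₁) ≤
    Real.sqrt ((1 - c) ^ n₀ *
        ∑ i ∈ Finset.univ.filter (fun i => P.d i ≤ D),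
          (P.d i : ℝ) * QF (fun g => (P.ρ i g).trace) (wlaw Z A₂) +
      ∑ i ∈ Finset.univ.filter (fun i => D < P.d i),
          (P.d i : ℝ) * QF (fun g => (P.ρ i g).trace) (wlaw Z A₁)) +
    2 * (1 - (Nat.card A₂ : ℝ) / (k : ℝ) ^ n₂ * ((Nat.card A₁ : ℝ) / (k : ℝ) ^ n₁))

/-! ## Block H2 : characters of large degree -/

/-- The sum over all permutations, for one representation. -/
def S_PermD : Prop := ∀ (G : Type) [Group G] [Fintype G] (d : ℕ)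
  (ρ : G →* Matrix (Fin d) (Fin d) ℂ), 0 < d → IsIrr ρ → ∀ (m : ℕ) (c : Fin (m + 1) → G),
  ∑ σ : Equiv.Perm (Fin m), ‖∑ z : Fin m → G, (ρ (altW c z * (altW c (z ∘ σ))⁻¹)).trace‖ ≤
    (Nat.card G : ℝ) ^ m *
      ((d : ℝ) * ∏ j ∈ Finset.range m, (1 + ((j : ℝ) + 1) / (d : ℝ)))

open Classical in
/-- Permutations of the unique letters of a word, for one representation. -/
def S_W1D : Prop := ∀ (G : Type) [Group G] [Fintype G] (d : ℕ)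
  (ρ : G →* Matrix (Fin d) (Fin d) ℂ), 0 < d → IsIrr ρ → ∀ (k n : ℕ) (w : Fin n → Fin k),
  ∑ σ ∈ (Finset.univ.filter fun σ : Equiv.Perm (Fin n) => ∀ i, i ∉ uq w → σ i = i),
      ‖∑ Z : Fin k → G, (ρ (wprod Z w * (wprod Z (w ∘ σ))⁻¹)).trace‖ ≤
    (Nat.card G : ℝ) ^ k *
      ((d : ℝ) * ∏ j ∈ Finset.range (uq w).card, (1 + ((j : ℝ) + 1) / (d : ℝ)))

/-- A unique letter of one word which is absent from the other word. -/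
def S_W2D : Prop := ∀ (G : Type) [Group G] [Fintype G] (d : ℕ)
  (ρ : G →* Matrix (Fin d) (Fin d) ℂ), IsIrr ρ → (∃ g, (ρ g).trace ≠ 1) →
  ∀ (k n n' : ℕ) (w : Fin n → Fin k) (w' : Fin n' → Fin k) (i : Fin n), uniq w i →
  (∀ j, w' j ≠ w i) →
  ∑ Z : Fin k → G, (ρ (wprod Z w * (wprod Z w')⁻¹)).trace = 0 ∧
    ∑ Z : Fin k → G, (ρ (wprod Z w' * (wprod Z w)⁻¹)).trace = 0

/-- The characters of large degree for the words with few repetitions. -/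
def S_High : Prop := ∀ (G : Type) [Group G] [Fintype G] (P : Planch G) (_M : Mono P)
  (k n r D : ℕ) (b : ℝ), n < k → 1 ≤ D → 0 ≤ b →
  (∀ m, n ≤ m + r → m ≤ n → P.SD D m ≤ b * ((k : ℝ) - (n : ℝ)) ^ m) →
  ∑ Z : Fin k → G, ∑ i, (open Classical in if D < P.d i then
      (P.d i : ℝ) * QF (fun g => (P.ρ i g).trace) (wlaw Z (fewRep k n r)) else 0) ≤
    (Nat.card G : ℝ) ^ k * b

/-- A bound for `P.SD`. -/
def S_SDb : Prop := ∀ (G : Type) [Group G] [Fintype G] (P : Planch G) (D m : ℕ), 1 ≤ D →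
  P.SD D m ≤ (Nat.card G : ℝ) * (1 + (m : ℝ) / (D : ℝ)) ^ m

/-! ## Block G2 : the spectral gap -/

/-- The number of homomorphisms to a cyclic group of prime order. -/
def S_HomP : Prop := ∀ (G : Type) [Group G] [Finite G] (p : ℕ) (S : Finset G), p.Prime →
  Subgroup.closure (S : Set G) = ⊤ →
  Finite (G →* Multiplicative (ZMod p)) ∧
    Nat.card (G →* Multiplicative (ZMod p)) ≤ p ^ S.card

/-- A proper subgroup of a nilpotent group is in the kernel of a homomorphism of prime order. -/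
def S_MaxH : Prop := ∀ (G : Type) [Group G] [Finite G], Group.IsNilpotent G →
  ∀ H : Subgroup G, H ≠ ⊤ → ∃ p : ℕ, p.Prime ∧ p ∣ Nat.card G ∧
    ∃ φ : G →* Multiplicative (ZMod p), φ ≠ 1 ∧ ∀ h ∈ H, φ h = 1

/-- The differences of the elements of every large subfamily generate the group. -/
def S_GenP : Prop := ∀ δ : ℝ, 0 < δ → ∃ γ₀ : ℝ, 0 < γ₀ ∧ ∀ γ : ℝ, 0 < γ → γ ≤ γ₀ →
  ∀ C₀ η : ℝ, 0 < C₀ → 0 < η → ∃ k₀ : ℕ, ∀ k : ℕ, k₀ ≤ k →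
  ∀ (G : Type) [Group G] [Fintype G], Group.IsNilpotent G →
  Real.log (Nat.card G) ≤ C₀ * (k : ℝ) →
  (∃ S : Finset G, Subgroup.closure (S : Set G) = ⊤ ∧ (S.card : ℝ) ≤ (1 - δ) * (k : ℝ)) →
  (Nat.card {Z : Fin k → G // ∃ I : Finset (Fin k), (1 - γ) * (k : ℝ) ≤ (I.card : ℝ) ∧
    Subgroup.closure {g | ∃ i ∈ I, ∃ j ∈ I, g = (Z i)⁻¹ * Z j} ≠ ⊤} : ℝ) ≤
    η * (Nat.card G : ℝ) ^ k

/-- Almost invariant vectors, pointwise form. -/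
def S_GapPt : Prop := ∀ (G : Type) [Group G] [Fintype G] (H : Subgroup G) (lam : H →* ℂˣ)
  (k D : ℕ) (Z : Fin k → G) (γ : ℝ), 0 < k → 0 < γ → γ ≤ 1 → H.index ≤ D →
  ¬ Gap Z H lam (γ ^ 2) →
  ∃ (v u : G → ℂ) (vm : ℝ) (I : Finset (Fin k)), Cov H lam v ∧ Cov H lam u ∧ 0 < vm ∧
    (∀ g, ‖v g‖ ≤ vm) ∧ (∃ g, ‖v g‖ = vm) ∧ (1 - γ) * (k : ℝ) ≤ (I.card : ℝ) ∧
    ∀ i ∈ I, ∀ g, ‖v ((Z i)⁻¹ * g) - u g‖ ≤ Real.sqrt (γ * (D : ℝ)) * vm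

/-- No almost invariant vector if the order of the linear character is bounded. -/
def S_Case1 : Prop := ∀ (G : Type) [Group G] [Fintype G] (H : Subgroup G) (lam : H →* ℂˣ)
  (k D r₀ : ℕ) (Z : Fin k → G) (β : ℝ) (v u : G → ℂ) (vm : ℝ) (I : Finset (Fin k)),
  lam ≠ 1 → H.index ≤ D → Nat.card lam.range ≤ r₀ → (D : ℝ) * (r₀ : ℝ) * (2 * β) < 1 →
  0 ≤ β → Cov H lam v → Cov H lam u → 0 < vm → (∀ g, ‖v g‖ ≤ vm) → (∃ g, ‖v g‖ = vm) →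
  (∀ i ∈ I, ∀ g, ‖v ((Z i)⁻¹ * g) - u g‖ ≤ β * vm) →
  Subgroup.closure {g | ∃ i ∈ I, ∃ j ∈ I, g = (Z i)⁻¹ * Z j} = ⊤ → False

/-- Almost invariant vectors and the phases. -/
def S_Case2 : Prop := ∀ (G : Type) [Group G] [Fintype G] (H : Subgroup G) (lam : H →* ℂˣ)
  (k : ℕ) (Z : Fin k → G) (β : ℝ) (v u : G → ℂ) (vm : ℝ) (I : Finset (Fin k)),
  0 ≤ β → β ≤ 1 / 4 → I.Nonempty → Cov H lam v → Cov H lam u → 0 < vm →
  (∀ g, ‖v g‖ ≤ vm) → (∃ g, ‖v g‖ = vm) →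
  (∀ i ∈ I, ∀ g, ‖v ((Z i)⁻¹ * g) - u g‖ ≤ β * vm) →
  ∃ (q : G ⧸ H) (θ : G ⧸ H → ℂˣ), (∀ x, θ x ∈ lam.range) ∧ ∀ i ∈ I,
    ‖((ph H lam ((Z i)⁻¹ * Quotient.out q) : ℂˣ) : ℂ) -
      ((θ (((Z i)⁻¹ * Quotient.out q : G) : G ⧸ H) : ℂˣ) : ℂ)‖ ≤ 8 * β

/-- Roots of unity close to one. -/
def S_Root : Prop := ∀ (Γ : Subgroup ℂˣ) [Finite Γ] (x : ℝ), 0 ≤ x →
  (Nat.card {ξ : Γ // ‖((ξ : ℂˣ) : ℂ) - 1‖ ≤ x} : ℝ) ≤ x * (Nat.card Γ : ℝ) / 2 + 1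

/-- The number of the families with close phases. -/
def S_CaseP : Prop := ∀ (G : Type) [Group G] [Fintype G] (H : Subgroup G) (lam : H →* ℂˣ)
  (k D : ℕ) (x f γ : ℝ), H.index ≤ D → 0 ≤ x → 0 < f → f ≤ 1 → 0 < γ → γ < 1 →
  (Nat.card {ξ : lam.range // ‖((ξ : ℂˣ) : ℂ) - 1‖ ≤ x} : ℝ) ≤
    f * (Nat.card lam.range : ℝ) →
  (Nat.card {Z : Fin k → G // ∃ I : Finset (Fin k), (1 - γ) * (k : ℝ) ≤ (I.card : ℝ) ∧
    ∃ (q : G ⧸ H) (θ : G ⧸ H → ℂˣ), (∀ x, θ x ∈ lam.range) ∧ ∀ i ∈ I,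
      ‖((ph H lam ((Z i)⁻¹ * Quotient.out q) : ℂˣ) : ℂ) -
        ((θ (((Z i)⁻¹ * Quotient.out q : G) : G ⧸ H) : ℂˣ) : ℂ)‖ ≤ x} : ℝ) ≤
    (D : ℝ) * (Nat.card G : ℝ) ^ D * 2 ^ k * f ^ ((1 - γ) * (k : ℝ)) *
      (Nat.card G : ℝ) ^ k

/-- The spectral gap for all the characters of bounded degree. -/
def S_Gap : Prop := ∀ (C₀ δ η : ℝ) (D : ℕ), 0 < C₀ → 0 < δ → 0 < η → 1 ≤ D →
  ∃ c : ℝ, 0 < c ∧ c < 1 ∧ ∃ k₀ : ℕ, ∀ k : ℕ, k₀ ≤ k →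
  ∀ (G : Type) [Group G] [Fintype G], Group.IsNilpotent G →
  Real.log (Nat.card G) ≤ C₀ * (k : ℝ) →
  (∃ S : Finset G, Subgroup.closure (S : Set G) = ⊤ ∧ (S.card : ℝ) ≤ (1 - δ) * (k : ℝ)) →
  ∀ (P : Planch G) (M : Mono P),
  (Nat.card {Z : Fin k → G // ∃ i, P.nt i ∧ P.d i ≤ D ∧ ¬ Gap Z (M.H i) (M.lam i) c} : ℝ) ≤
    η * (Nat.card G : ℝ) ^ k

/-! ## Block K2 : the terminal subgroup and the index inequalities -/

/-- Abelianisations of a subgroup. -/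
def S_AbSub : Prop := ∀ (G : Type) [Group G] [Finite G] (L H : Subgroup G), L ≤ H →
  Nat.card (Abelianization H) ≤ Nat.card (Abelianization L) * L.relIndex H

/-- Index of the core. -/
def S_Core : Prop := ∀ (G : Type) [Group G] [Finite G] (H : Subgroup G),
  H.normalCore.index ≤ (H.index).factorial

/-- The subgroups of bounded index of `K` have no much larger Abelianisation than `K`. -/
def Term {G : Type} [Group G] (K : Subgroup G) (D : ℕ) (τ : ℝ) : Prop :=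
  ∀ H : Subgroup G, H ≤ K → H.relIndex K ≤ D →
    (Nat.card (Abelianization H) : ℝ) ≤ τ * (Nat.card (Abelianization K) : ℝ)

/-- Existence of a terminal normal subgroup of bounded index. -/
def S_Term : Prop := ∀ (D : ℕ) (c₂ C₀ : ℝ), 1 ≤ D → 0 < c₂ → 0 < C₀ → ∃ Jm k₀ : ℕ,
  ∀ k : ℕ, k₀ ≤ k → ∀ (G : Type) [Group G] [Finite G],
  Real.log (Nat.card G) ≤ C₀ * (k : ℝ) →
  ∃ K : Subgroup G, K.Normal ∧ K.index ≤ Jm ∧ Term K D (Real.exp (c₂ * (k : ℝ)))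

open Classical in
/-- The average over a normal subgroup. -/
def S_B1a : Prop := ∀ (G : Type) [Group G] [Fintype G] (H K₁ : Subgroup G) (lam : H →* ℂˣ)
  (k n n' : ℕ) (Z : Fin k → G) (w : Fin n → Fin k) (w' : Fin n' → Fin k), K₁.Normal →
  K₁ ≤ H →
  ‖∑ u : Fin k → K₁, indL H lam (wprod (fun i => (u i : G) * Z i) w *
      (wprod (fun i => (u i : G) * Z i) w')⁻¹)‖ ≤
    (Nat.card K₁ : ℝ) ^ k * ((1 / (Nat.card H : ℝ)) *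
      (Nat.card {y : G // ∀ (i : Fin k), ∀ u ∈ K₁, ∀ h : H,
        (h : G) = y⁻¹ * (bW Z w i u * (bW Z w' i u)⁻¹) * y → lam h = 1} : ℝ))

/-- The number of the linear characters of `H` which kill a small subgroup. -/
def S_B1b : Prop := ∀ (G : Type) [Group G] [Fintype G] (K H B : Subgroup G) [K.Normal]
  (D : ℕ) (τ : ℝ) (y : G) (F : Finset (H →* ℂˣ)), H.index ≤ D → 0 ≤ τ → Term K D τ →
  B ≤ H.normalCore ⊓ K →
  (∀ lam ∈ F, ∀ b ∈ B, ∀ h : H, (h : G) = y⁻¹ * b * y → lam h = 1) →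
  (F.card : ℝ) ≤ (K.index : ℝ) * ((D : ℝ) * τ) *
    (((B.subgroupOf K).map Abelianization.of).index : ℝ)

/-- The image of the relations in the Abelianisation of `K`. -/
def S_B1c : Prop := ∀ (G : Type) [Group G] [Fintype G] (K H : Subgroup G) [K.Normal]
  [Fintype (G ⧸ K)] (D R k n n' : ℕ) (Z : Fin k → G) (w : Fin n → Fin k)
  (w' : Fin n' → Fin k), H.index ≤ D →
  (((Subgroup.closure {b : G | ∃ (i : Fin k), ∃ u ∈ H.normalCore ⊓ K,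
      b = bW Z w i u * (bW Z w' i u)⁻¹}).subgroupOf K).map Abelianization.of).index ≤
    (D.factorial) ^ ((2 * R + 1) ^ K.index) *
      (MS K (Sset R (fun i => (Z i : G ⧸ K)) w w')).index

/-- The conjugates of `u` in the Abelianisation of `K`. -/
def S_Phi2 : Prop := ∀ (G : Type) [Group G] (K : Subgroup G) [K.Normal]
  [Fintype (G ⧸ K)] (k n n' : ℕ) (Z : Fin k → G) (w : Fin n → Fin k) (w' : Fin n' → Fin k)
  (i : Fin k) (u : K), ∃ h : bW Z w i u * (bW Z w' i u)⁻¹ ∈ K,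
  Abelianization.of (⟨bW Z w i u * (bW Z w' i u)⁻¹, h⟩ : K) =
    phiH K (fun a => (cnt (fun i => (Z i : G ⧸ K)) w i a : ℤ) -
      (cnt (fun i => (Z i : G ⧸ K)) w' i a : ℤ)) u

/-- All the linear characters of `H` together. -/
def S_B1 : Prop := ∀ (G : Type) [Group G] [Fintype G] (K H : Subgroup G) [K.Normal]
  [Fintype (G ⧸ K)] [Fintype (H.normalCore ⊓ K : Subgroup G)]
  (D R k n n' : ℕ) (τ : ℝ) (Z : Fin k → G) (w : Fin n → Fin k)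
  (w' : Fin n' → Fin k) (F : Finset (H →* ℂˣ)), H.index ≤ D → 0 ≤ τ → Term K D τ →
  ∑ lam ∈ F, ‖∑ u : Fin k → (H.normalCore ⊓ K : Subgroup G),
      indL H lam (wprod (fun i => (u i : G) * Z i) w *
        (wprod (fun i => (u i : G) * Z i) w')⁻¹)‖ ≤
    (Nat.card (H.normalCore ⊓ K : Subgroup G) : ℝ) ^ k *
      ((D : ℝ) ^ 2 * (K.index : ℝ) * τ * ((D.factorial : ℝ) ^ ((2 * R + 1) ^ K.index)) *
        ((MS K (Sset R (fun i => (Z i : G ⧸ K)) w w')).index : ℝ))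

/-! ## Block C2 : counts of a word and the product law -/

/-- The number of the words with given counts. -/
def S_Euler : Prop := ∀ (Q : Type) [Group Q] [Fintype Q] (k n : ℕ) (z : Fin k → Q)
  (N : Fin k → Q → ℕ),
  Nat.card {w : Fin n → Fin k // cnt z w = N} * ∏ i, ∏ a, (N i a).factorial ≤
    ∏ a : Q, (∑ i, N i a).factorial

/-- Elementary facts on the counts. -/
def S_Cnt : Prop := ∀ (Q : Type) [Group Q] [Fintype Q] (k n : ℕ) (z : Fin k → Q)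
  (w : Fin n → Fin k), (∀ i a, cnt z w i a ≤ n) ∧ (∀ a, ∑ i, cnt z w i a = occ z w a) ∧
    ∑ a, occ z w a = n

/-- Comparison with the product law, one family of counts. -/
def S_Transf : Prop := ∀ (Q : Type) [Group Q] [Fintype Q] (k n : ℕ) (s ε : ℝ)
  (z : Fin k → Q) (N : Fin k → Q → ℕ), 0 < k → 0 < s → 0 ≤ ε →
  (∀ a, (∑ i, (N i a : ℝ)) ≤ (n : ℝ) / (Fintype.card Q : ℝ) + ε * (k : ℝ)) →
  (Nat.card {w : Fin n → Fin k // cnt z w = N} : ℝ) ≤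
    (k : ℝ) ^ n * (Wf (Fintype.card Q) s ε k n * ∏ i, pw s (N i))

open Classical in
/-- Comparison with the product law. -/
def S_TransS : Prop := ∀ (Q : Type) [Group Q] [Fintype Q] (k n L : ℕ) (s ε : ℝ)
  (z : Fin k → Q) (A : Set (Fin k → Q → ℕ)), 0 < k → 0 < s → 0 ≤ ε → n ≤ L →
  (Nat.card {w : Fin n → Fin k //
    (∀ b, (occ z w b : ℝ) ≤ (n : ℝ) / (Fintype.card Q : ℝ) + ε * (k : ℝ)) ∧
      cnt z w ∈ A} : ℝ) ≤
    (k : ℝ) ^ n * (Wf (Fintype.card Q) s ε k n *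
      ∑ N ∈ (Fintype.piFinset fun _ : Fin k => XL Q L).filter (fun N => N ∈ A),
        ∏ i, pw s (N i))

open Classical in
/-- Lower deviations of the information content. -/
def S_LDT2 : Prop := ∀ (α : Type) (X : Finset α) (p c : α → ℝ) (C η : ℝ) (k : ℕ),
  (∀ x ∈ X, 0 < p x) → ∑ x ∈ X, p x ≤ 1 → (∀ x ∈ X, p x ≤ c x ∧ c x ≤ 1) → 0 < C →
  ∑ x ∈ X, Real.sqrt (p x) ≤ C → 0 < η →
  ∑ N ∈ (Fintype.piFinset fun _ : Fin k => X).filter (fun N =>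
      ∑ i, -Real.log (c (N i)) ≤ (k : ℝ) * (∑ x ∈ X, p x * (-Real.log (c x)) - η)),
    ∏ i, p (N i) ≤ Real.exp (-((k : ℝ) * η ^ 2 / (16 * C)))

open Classical in
/-- Upper deviations of the information content. -/
def S_LDL : Prop := ∀ (α : Type) (X : Finset α) (p c : α → ℝ) (C η : ℝ) (k : ℕ),
  (∀ x ∈ X, 0 < p x) → ∑ x ∈ X, p x ≤ 1 → (∀ x ∈ X, p x ≤ c x ∧ c x ≤ 1) → 0 < C →
  ∑ x ∈ X, Real.sqrt (p x) ≤ C → 0 < η → η ≤ 8 * C →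
  ∑ N ∈ (Fintype.piFinset fun _ : Fin k => X).filter (fun N =>
      (k : ℝ) * (∑ x ∈ X, p x * (-Real.log (c x)) + η) ≤ ∑ i, -Real.log (c (N i))),
    ∏ i, p (N i) ≤ Real.exp (-((k : ℝ) * η ^ 2 / (64 * C)))

open Classical in
/-- The tails. -/
def S_LDT3 : Prop := ∀ (α : Type) (X : Finset α) (p : α → ℝ) (C η R' : ℝ) (k : ℕ),
  (∀ x ∈ X, 0 < p x) → ∑ x ∈ X, p x ≤ 1 → 0 < C → ∑ x ∈ X, Real.sqrt (p x) ≤ C →
  ∑ N ∈ (Fintype.piFinset fun _ : Fin k => X).filter (fun N =>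
      η * (k : ℝ) < ∑ i, max (-Real.log (p (N i)) - R') 0),
    ∏ i, p (N i) ≤ Real.exp (-((k : ℝ) * (η / 2 - C * Real.exp (-(R' / 2)))))

open Classical in
/-- The number of the indices in a set of small weight. -/
def S_LDT4 : Prop := ∀ (α : Type) (X : Finset α) (p : α → ℝ) (Bd : α → Prop) (a : ℝ) (k : ℕ),
  (∀ x ∈ X, 0 < p x) → ∑ x ∈ X, p x ≤ 1 →
  ∑ N ∈ (Fintype.piFinset fun _ : Fin k => X).filter (fun N =>
      a * (k : ℝ) < (Nat.card {i : Fin k // Bd (N i)} : ℝ)),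
    ∏ i, p (N i) ≤ Real.exp (-((k : ℝ) * (a - 2 * ∑ x ∈ X.filter Bd, p x)))

open Classical in
/-- The weight of the families which are equivalent to a given one, up to few exceptions. -/
def S_LDPair : Prop := ∀ (α : Type) (X : Finset α) (p c : α → ℝ) (r : α → α → Prop)
  (k : ℕ) (y : Fin k → α) (R' θ a : ℝ),
  (∀ x ∈ X, 0 < p x) → ∑ x ∈ X, p x ≤ 1 → (∀ i, y i ∈ X) →
  (∀ i, c (y i) = ∑ x ∈ X.filter (fun x => r x (y i)), p x) → (∀ i, 0 < c (y i)) →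
  0 < θ → θ ≤ 1 → 0 ≤ a → 0 ≤ R' →
  ∑ N ∈ (Fintype.piFinset fun _ : Fin k => X).filter (fun N =>
      (Nat.card {i : Fin k // ¬ r (N i) (y i)} : ℝ) ≤ a * (k : ℝ)),
    ∏ i, p (N i) ≤
    Real.exp (∑ i, Real.log (c (y i)) + ∑ i, max (-Real.log (c (y i)) - R') 0 +
      (k : ℝ) * θ * Real.exp R' + a * (k : ℝ) * Real.log (1 / θ))

/-- The weights `pw`. -/
def S_Pw : Prop := ∀ (Q : Type) [Group Q] [Fintype Q] (s : ℝ) (L R : ℕ), 0 < s →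
  (∀ x : Q → ℕ, 0 < pw s x) ∧ ∑ x ∈ XL Q L, pw s x ≤ 1 ∧
  ∑ x ∈ XL Q L, Real.sqrt (pw s x) ≤ 2 ^ (Fintype.card Q) * Real.exp (2 * s) ∧
  ∑ x ∈ XL Q L, (open Classical in if ∃ b, R < x b then pw s x else 0) ≤
    s / ((R : ℝ) + 1)

/-- The weights of the classes. -/
def S_Cls : Prop := ∀ (Q : Type) [Group Q] [Fintype Q] (S : Finset (Q → ℤ)) (s : ℝ) (L : ℕ),
  0 < s → (∀ x ∈ XL Q L, pw s x ≤ clsS S s L x) ∧ (∀ x : Q → ℕ, clsS S s L x ≤ 1) ∧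
  (∀ x y : Q → ℕ, (fun a => (y a : ℤ) - (x a : ℤ)) ∈ rS S → clsS S s L x = clsS S s L y) ∧
  0 ≤ HS S s L

/-- The occupation numbers of the states. -/
def S_Occ : Prop := ∀ (Q : Type) [Group Q] [Fintype Q] (k n : ℕ) (ε : ℝ), 0 < ε →
  3 < ε * (k : ℝ) →
  (Nat.card {p : (Fin k → Q) × (Fin n → Fin k) //
    ∃ b, (n : ℝ) / (Fintype.card Q : ℝ) + ε * (k : ℝ) < (occ p.1 p.2 b : ℝ)} : ℝ) ≤
    (Fintype.card Q : ℝ) ^ k * (k : ℝ) ^ n *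
      (9 * (Fintype.card Q : ℝ) * (n : ℝ) / (ε * (k : ℝ)) ^ 2 +
        9 * (n : ℝ) ^ 2 / (ε ^ 2 * (k : ℝ) ^ 3))

/-- The number of the atypical pairs. -/
def S_TypP : Prop := ∀ (Q : Type) [Group Q] [Fintype Q] (k n R L : ℕ) (s ε η R' a : ℝ),
  0 < s → 0 < ε → 3 < ε * (k : ℝ) → n ≤ L → 0 < η → 0 < a → 0 < R →
  (Nat.card {p : (Fin k → Q) × (Fin n → Fin k) // p.2 ∉ GW s ε η R' a R L p.1} : ℝ) ≤
    (Fintype.card Q : ℝ) ^ k * (k : ℝ) ^ n *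
      (9 * (Fintype.card Q : ℝ) * (n : ℝ) / (ε * (k : ℝ)) ^ 2 +
        9 * (n : ℝ) ^ 2 / (ε ^ 2 * (k : ℝ) ^ 3) +
        Wf (Fintype.card Q) s ε k n *
          (2 ^ ((2 * R + 1) ^ (Fintype.card Q)) * Real.exp (-((k : ℝ) * η ^ 2 /
              (16 * (2 ^ (Fintype.card Q) * Real.exp (2 * s))))) +
            Real.exp (-((k : ℝ) * (η / 2 -
              2 ^ (Fintype.card Q) * Real.exp (2 * s) * Real.exp (-(R' / 2))))) +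
            Real.exp (-((k : ℝ) * (a - 2 * (s / (R : ℝ)))))))

/-- The second moment. -/
def S_SM : Prop := ∀ (Q : Type) [Group Q] [Fintype Q] (k n R L : ℕ) (s ε η R' a θ η₂ : ℝ)
  (z : Fin k → Q) (idx : Finset (Q → ℤ) → ℝ), 0 < k → 0 < s → 0 ≤ ε → n ≤ L → 0 ≤ a →
  0 ≤ R' → 0 < θ → θ ≤ 1 → (∀ S, 0 ≤ idx S) →
  (∀ S ⊆ BR Q R, idx S ≤ Real.exp ((k : ℝ) * (HS S s L + η₂))) →
  (open Classical in ∑ w : Fin n → Fin k, ∑ w' : Fin n → Fin k,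
    if w ∈ GW s ε η R' a R L z ∧ w' ∈ GW s ε η R' a R L z then idx (Sset R z w w') else 0) ≤
  (k : ℝ) ^ (2 * n) * (Wf (Fintype.card Q) s ε k n * 2 ^ ((2 * R + 1) ^ (Fintype.card Q)) *
    Real.exp ((k : ℝ) * (η₂ + 2 * η + θ * Real.exp R' + 2 * a * Real.log (1 / θ))))

/-- From families of elements to families of cosets. -/
def S_Push : Prop := ∀ (G : Type) [Group G] [Finite G] (K : Subgroup G) (k : ℕ)
  (α : Type) [Finite α] (B : (Fin k → G ⧸ K) → α → Prop),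
  Nat.card {p : (Fin k → G) × α // B (fun i => (p.1 i : G ⧸ K)) p.2} =
    (Nat.card K) ^ k * Nat.card {p : (Fin k → G ⧸ K) × α // B p.1 p.2}

/-- The characters of small degree, typical words. -/
def S_LowSum : Prop := ∀ (G : Type) [Group G] [Fintype G], Group.IsNilpotent G →
  ∀ (P : Planch G) (K : Subgroup G) [K.Normal] [Fintype (G ⧸ K)] (D k n R L : ℕ)
  (τ s ε η R' a θ η₂ : ℝ), 1 ≤ D → 0 ≤ τ → Term K D τ → 0 < k → 0 < s → 0 ≤ ε → n ≤ L →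
  0 ≤ a → 0 ≤ R' → 0 < θ → θ ≤ 1 →
  (∀ S ⊆ BR (G ⧸ K) R, ((MS K S).index : ℝ) ≤ Real.exp ((k : ℝ) * (HS S s L + η₂))) →
  ∑ Z : Fin k → G, ∑ i, (open Classical in if P.d i ≤ D then
      (P.d i : ℝ) * QF (fun g => (P.ρ i g).trace)
        (wlaw Z (n := n) (GW s ε η R' a R L (fun i => (Z i : G ⧸ K)))) else 0) ≤
    (Nat.card G : ℝ) ^ k * ((D : ℝ) *
      ((D : ℝ) * (Real.exp (12 * (1 + Real.sqrt (Real.log (Nat.card G))) *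
        Real.log D ^ 2) * (Real.log (Nat.card G) + 1) + 1)) *
      ((D : ℝ) ^ 2 * (K.index : ℝ) * τ * ((D.factorial : ℝ) ^ ((2 * R + 1) ^ K.index))) *
      (Wf K.index s ε k n * 2 ^ ((2 * R + 1) ^ K.index) *
        Real.exp ((k : ℝ) * (η₂ + 2 * η + θ * Real.exp R' + 2 * a * Real.log (1 / θ)))))

/-! ## Block L2 : the lower bound -/

/-- Words with the same counts modulo `rS S`. -/
def S_LB1 : Prop := ∀ (G : Type) [Group G] (K : Subgroup G) [K.Normal]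
  [Fintype (G ⧸ K)] (k n : ℕ) (Z : Fin k → G) (S : Finset (G ⧸ K → ℤ))
  (w w' : Fin n → Fin k),
  (∀ i, (fun a => (cnt (fun i => (Z i : G ⧸ K)) w i a : ℤ) -
    (cnt (fun i => (Z i : G ⧸ K)) w' i a : ℤ)) ∈ rS S) →
  (∀ a q, trs (fun i => (Z i : G ⧸ K)) w a q = trs (fun i => (Z i : G ⧸ K)) w' a q) →
  st (fun i => (Z i : G ⧸ K)) w n = st (fun i => (Z i : G ⧸ K)) w' n →
  ∃ h : wprod Z w * (wprod Z w')⁻¹ ∈ K,
    Abelianization.of (⟨wprod Z w * (wprod Z w')⁻¹, h⟩ : K) ∈ MS K S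

/-- The number of the elements reached by words of bounded information content. -/
def S_LB2 : Prop := ∀ (G : Type) [Group G] [Fintype G] (K : Subgroup G) [K.Normal]
  [Fintype (G ⧸ K)] (k n L : ℕ) (Z : Fin k → G) (S : Finset (G ⧸ K → ℤ)) (s h : ℝ),
  0 < s → n ≤ L →
  (Nat.card {g : G // ∃ w : Fin n → Fin k, wprod Z w = g ∧
    ∑ i, -Real.log (clsS S s L (cnt (fun i => (Z i : G ⧸ K)) w i)) ≤ (k : ℝ) * h} : ℝ) *
    ((MS K S).index : ℝ) ≤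
  (Nat.card G : ℝ) * ((n : ℝ) + 1) ^ (K.index ^ 2) * Real.exp ((k : ℝ) * h)

/-- Lower bound for the distance by a set of small measure. -/
def S_LBtv : Prop := ∀ (G : Type) [Group G] [Fintype G] (k : ℕ) (Z : Fin k → G) (t : ℝ)
  (W : Finset ℕ) (A : ℕ → Set G), 0 < k → 0 ≤ t →
  ∑ n ∈ W, pois t n * ∑ g : G, (open Classical in if g ∈ A n then stepLaw Z n g else 0) -
    (∑ n ∈ W, (Nat.card (A n) : ℝ)) / (Nat.card G : ℝ) ≤ dTV Z t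

/-! ## Block A2 : assembly -/

/-- The factor `Wf` is subexponential. -/
def S_WfB : Prop := ∀ (Jm : ℕ) (s₀ s₁ c : ℝ), 0 < s₀ → s₀ ≤ s₁ → 0 < c →
  ∃ ε : ℝ, 0 < ε ∧ ε ≤ 1 ∧ ∃ k₀ : ℕ, ∀ k : ℕ, k₀ ≤ k → ∀ J : ℕ, 1 ≤ J → J ≤ Jm → ∀ s : ℝ,
  s₀ ≤ s → s ≤ s₁ → ∀ n : ℕ, |(n : ℝ) - s * (k : ℝ)| ≤ ε * (k : ℝ) →
  Wf J s ε k n ≤ Real.exp (c * (k : ℝ))

/-- The upper bound, before the choice of the parameters. -/
def S_UBk : Prop := ∀ (G : Type) [Group G] [Fintype G] (P : Planch G) (M : Mono P)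
  (k n₀ n₂ n₁ r D : ℕ) (c ηg A B b₂ b₁ : ℝ) (T : (Fin k → G) → Set (Fin n₂ → Fin k)),
  0 < k → 0 ≤ c → c ≤ 1 → 1 ≤ D → 0 ≤ A → 0 ≤ B →
  (Nat.card {Z : Fin k → G // ∃ i, P.nt i ∧ P.d i ≤ D ∧ ¬ Gap Z (M.H i) (M.lam i) c} : ℝ) ≤
    ηg * (Nat.card G : ℝ) ^ k →
  ∑ Z : Fin k → G, ∑ i, (open Classical in if P.d i ≤ D then
      (P.d i : ℝ) * QF (fun g => (P.ρ i g).trace) (wlaw Z (T Z)) else 0) ≤
    (Nat.card G : ℝ) ^ k * A →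
  ∑ Z : Fin k → G, ∑ i, (open Classical in if D < P.d i then
      (P.d i : ℝ) * QF (fun g => (P.ρ i g).trace) (wlaw Z (fewRep k n₁ r)) else 0) ≤
    (Nat.card G : ℝ) ^ k * B →
  ∑ Z : Fin k → G, (1 - (Nat.card (T Z) : ℝ) / (k : ℝ) ^ n₂) ≤ (Nat.card G : ℝ) ^ k * b₂ →
  1 - (Nat.card (fewRep k n₁ r) : ℝ) / (k : ℝ) ^ n₁ ≤ b₁ →
  ∑ Z : Fin k → G, tvStep Z (n₀ + n₂ + n₁) ≤ (Nat.card G : ℝ) ^ k *
    (ηg + Real.sqrt ((1 - c) ^ n₀ * A + B) / 2 + b₂ + b₁)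

/-- The upper bound. -/
def S_UBasy : Prop := ∀ (C₀ δ s₀ s₁ ε ηt : ℝ), 0 < C₀ → 0 < δ → 0 < s₀ → s₀ ≤ s₁ → 0 < ε →
  0 < ηt → ∃ (D : ℕ) (c₂ η₂ : ℝ), 1 ≤ D ∧ 0 < c₂ ∧ 0 < η₂ ∧ ∀ Jm : ℕ, ∃ R k₀ : ℕ, ∀ k : ℕ,
  k₀ ≤ k → ∀ (G : Type) [Group G] [Fintype G], Group.IsNilpotent G →
  Real.log (Nat.card G) ≤ C₀ * (k : ℝ) →
  (∃ S : Finset G, Subgroup.closure (S : Set G) = ⊤ ∧ (S.card : ℝ) ≤ (1 - δ) * (k : ℝ)) →
  ∀ (K : Subgroup G) [K.Normal] [Fintype (G ⧸ K)], K.index ≤ Jm →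
  Term K D (Real.exp (c₂ * (k : ℝ))) → ∀ s : ℝ, s₀ ≤ s → s ≤ s₁ →
  (∀ S ⊆ BR (G ⧸ K) R, ((MS K S).index : ℝ) ≤
    Real.exp ((k : ℝ) * (HS S s ⌈(s₁ + 1) * (k : ℝ)⌉₊ + η₂))) →
  ∑ Z : Fin k → G, tvStep Z ⌈(s + ε) * (k : ℝ)⌉₊ ≤ ηt * (Nat.card G : ℝ) ^ k

/-- The lower bound. -/
def S_LBasy : Prop := ∀ (s₀ s₁ η₂ ηt : ℝ) (Jm R : ℕ), 0 < s₀ → s₀ ≤ s₁ → 0 < η₂ → 0 < ηt →
  ∃ k₀ : ℕ, ∀ k : ℕ, k₀ ≤ k → ∀ (G : Type) [Group G] [Fintype G]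
  (K : Subgroup G) [K.Normal] [Fintype (G ⧸ K)], K.index ≤ Jm → ∀ s : ℝ, s₀ ≤ s → s ≤ s₁ →
  ∀ S ⊆ BR (G ⧸ K) R,
  Real.exp ((k : ℝ) * (HS S s ⌈(s₁ + 1) * (k : ℝ)⌉₊ + η₂)) < ((MS K S).index : ℝ) →
  (1 - ηt) * (Nat.card G : ℝ) ^ k ≤ ∑ Z : Fin k → G, dTV Z (s * (k : ℝ))

/-- The dichotomy. -/
def S_Dich : Prop := ∀ (C₀ δ s₀ s₁ ε ηt : ℝ), 0 < C₀ → 0 < δ → 0 < s₀ → s₀ ≤ s₁ → 0 < ε →
  0 < ηt → ∃ k₀ : ℕ, ∀ k : ℕ, k₀ ≤ k →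
  ∀ (G : Type) [Group G] [Fintype G], Group.IsNilpotent G →
  Real.log (Nat.card G) ≤ C₀ * (k : ℝ) →
  (∃ S : Finset G, Subgroup.closure (S : Set G) = ⊤ ∧ (S.card : ℝ) ≤ (1 - δ) * (k : ℝ)) →
  ∀ s : ℝ, s₀ ≤ s → s ≤ s₁ →
  (1 - ηt) * (Nat.card G : ℝ) ^ k ≤ ∑ Z : Fin k → G, dTV Z (s * (k : ℝ)) ∨
    ∑ Z : Fin k → G, tvStep Z ⌈(s + ε) * (k : ℝ)⌉₊ ≤ ηt * (Nat.card G : ℝ) ^ k

/-- An upper bound for the mixing time. -/
def S_Fast : Prop := ∀ (C₀ δ : ℝ), 0 < C₀ → 0 < δ → ∃ s₁ : ℝ, 0 < s₁ ∧ ∃ k₀ : ℕ, ∀ k : ℕ,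
  k₀ ≤ k → ∀ (G : Type) [Group G] [Fintype G], Group.IsNilpotent G →
  Real.log (Nat.card G) ≤ C₀ * (k : ℝ) →
  (∃ S : Finset G, Subgroup.closure (S : Set G) = ⊤ ∧ (S.card : ℝ) ≤ (1 - δ) * (k : ℝ)) →
  ∑ Z : Fin k → G, tvStep Z ⌈s₁ * (k : ℝ)⌉₊ ≤ (1 / 4) * (Nat.card G : ℝ) ^ k

/-- A lower bound for the mixing time. -/
def S_Slow : Prop := ∀ (C₀ c : ℝ), 0 < C₀ → 0 < c → ∃ s₀ : ℝ, 0 < s₀ ∧ ∀ ηt : ℝ, 0 < ηt →
  ∃ k₀ : ℕ, ∀ k : ℕ, k₀ ≤ k → ∀ (G : Type) [Group G] [Fintype G],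
  Real.log (Nat.card G) ≤ C₀ * (k : ℝ) → (∀ m : ℕ, (m : ℝ) ≤ c * (k : ℝ) → ¬ good G k m) →
  ∀ Z : Fin k → G, 1 - ηt ≤ dTV Z (s₀ * (k : ℝ))

/-- The distance decreases with time. -/
def S_Anti : Prop := ∀ (G : Type) [Group G] [Fintype G] (k : ℕ) (Z : Fin k → G) (t t' : ℝ),
  0 < k → 0 ≤ t → t ≤ t' → dTV Z t' ≤ dTV Z t ∧ 0 ≤ dTV Z t ∧ dTV Z t ≤ 1

/-- The theorem of stage 2. -/
def S_Main2 : Prop := ∀ (G : ℕ → Type) [∀ n, Group (G n)] [∀ n, Fintype (G n)] (k : ℕ → ℕ)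
  (C₀ δ : ℝ), 0 < δ → (∀ n, Group.IsNilpotent (G n)) →
  Tendsto (fun n => (Nat.card (G n) : ℝ)) atTop atTop →
  Tendsto (fun n => Real.log (k n) / Real.log (Nat.card (G n))) atTop (𝓝 0) →
  (∀ᶠ n in atTop, Real.log (Nat.card (G n)) ≤ C₀ * (k n : ℝ)) →
  (∀ᶠ n in atTop, ∃ S : Finset (G n), Subgroup.closure (S : Set (G n)) = ⊤ ∧
    (S.card : ℝ) ≤ (1 - δ) * (k n : ℝ)) →
  ∃ t : ℕ → ℝ,
  (∀ ε : ℝ, 0 < ε → ε < 1 → ∀ δ : ℝ, 0 < δ →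
    Tendsto (fun n => prob (G n) (k n) fun Z => 1 - δ ≤ dTV Z ((1 - ε) * t n)) atTop (𝓝 1)) ∧
  (∀ ε : ℝ, 0 < ε → ∀ δ : ℝ, 0 < δ →
    Tendsto (fun n => prob (G n) (k n) fun Z => dTV Z ((1 + ε) * t n) ≤ δ) atTop (𝓝 1))

end NilCut
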