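import Pool.Agent.Lib.MP_4ddf81_pr.Defs3
import Pool.Agent.Lib.MP_4ddf81_pr.P2.Main2

/-!
# MP_4ddf81_pr, stage 3 : statements of the pieces

Every piece is a `Prop`; the file `P3/<Name>.lean` proves `theorem p_<Name> : S_<Name>`
(possibly with other statements as hypotheses, as given in the requests).
-/

namespace NilCut

open Filter Topology

/-! ## Block D3 : continuous time -/

/-- Decay by the gap in continuous time. -/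
def S_QF5 : Prop := ∀ (G : Type) [Group G] [Fintype G] (H : Subgroup G) (lam : H →* ℂˣ)
  (k : ℕ) (Z : Fin k → G) (r t : ℝ) (μ : G → ℝ), 0 < k → 0 ≤ r → 0 ≤ t → DGap Z H lam r →
  QF (indL H lam) (conv (law Z t) μ) ≤ Real.exp (-(2 * r * t)) * QF (indL H lam) μ

/-- From the mixed time to the continuous time. -/
def S_T4 : Prop := ∀ (G : Type) [Group G] [Fintype G] (k : ℕ) (Z : Fin k → G) (t t₁ : ℝ)
  (n : ℕ), 0 < k → 0 ≤ t → 0 ≤ t₁ →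
  dTV Z (t + t₁) ≤ ∑ i ∈ Finset.range n, pois t₁ i + tvMix Z t n

open Classical in
/-- The representations which are trivial on `[K, K]` but not on `K`. -/
def S_Kid : Prop := ∀ (G : Type) [Group G] [Fintype G] (P : Planch G) (K : Subgroup G),
  K.Normal → ∀ F : Finset (K →* ℂˣ), (∀ lam, lam ∈ F ↔ lam ≠ 1) → ∀ g : G,
  ∑ i, (if P.Kl K i then (P.d i : ℂ) * (P.ρ i g).trace else 0) = ∑ lam ∈ F, indL K lam g

open Classical in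
/-- The deterministic upper bound. -/
def S_UB3 : Prop := ∀ (G : Type) [Group G] [Fintype G] (P : Planch G) (M : Mono P)
  (K : Subgroup G), K.Normal → ∀ (F : Finset (K →* ℂˣ)), (∀ lam, lam ∈ F ↔ lam ≠ 1) →
  ∀ (k n D : ℕ) (Z : Fin k → G) (A₁ : Set (Fin n → Fin k)) (c t : ℝ), 0 < k → 0 ≤ c → 0 ≤ t →
  (∀ i, P.nt i → P.d i ≤ D → P.Kl K i ∨ DGap Z (M.H i) (M.lam i) c) →
  2 * tvMix Z t n ≤
    Real.sqrt ((Nat.card G : ℝ) * Real.exp (-(2 * c * t)) +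
      ∑ lam ∈ F, QF (indL K lam) (law Z t) +
      ∑ i ∈ Finset.univ.filter (fun i => D < P.d i),
          (P.d i : ℝ) * QF (fun g => (P.ρ i g).trace) (wlaw Z A₁)) +
    2 * (1 - (Nat.card A₁ : ℝ) / (k : ℝ) ^ n)

/-- The number of the linear characters. -/
def S_FinC : Prop := ∀ (G : Type) [Group G] [Finite G], Finite (G →* ℂˣ) ∧
  Nat.card (G →* ℂˣ) = Nat.card (Abelianization G) ∧
  Nat.card (Abelianization G) ≤ Nat.card G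

/-! ## Block N3 : the slow representations -/

/-- Almost invariant vectors, pointwise form. -/
def S_DPt : Prop := ∀ (G : Type) [Group G] [Fintype G] (H : Subgroup G) (lam : H →* ℂˣ)
  (k D : ℕ) (Z : Fin k → G) (γ : ℝ), 0 < k → 0 < γ → γ ≤ 1 → H.index ≤ D →
  ¬ DGap Z H lam (γ ^ 2 / 2) →
  ∃ (v : G → ℂ) (vm : ℝ) (I : Finset (Fin k)), Cov H lam v ∧ 0 < vm ∧
    (∀ g, ‖v g‖ ≤ vm) ∧ (∃ g, ‖v g‖ = vm) ∧ (1 - γ) * (k : ℝ) ≤ (I.card : ℝ) ∧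
    ∀ i ∈ I, ∀ g, ‖v ((Z i)⁻¹ * g) - v g‖ ≤ Real.sqrt (γ * (D : ℝ)) * vm

/-- From almost invariant to invariant vectors. -/
def S_Inv : Prop := ∀ (G : Type) [Group G] [Fintype G] (H : Subgroup G) (lam : H →* ℂˣ)
  (k m : ℕ) (Z : Fin k → G) (β vm : ℝ) (v : G → ℂ) (I : Finset (Fin k)),
  H.index * Nat.card lam.range ≤ m → 0 ≤ β → (m.factorial : ℝ) * β < 1 → Cov H lam v →
  0 < vm → (∀ g, ‖v g‖ ≤ vm) → (∃ g, ‖v g‖ = vm) →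
  (∀ i ∈ I, ∀ g, ‖v ((Z i)⁻¹ * g) - v g‖ ≤ β * vm) →
  ∃ (v' : G → ℂ) (P : Subgroup G), Cov H lam v' ∧ v' ≠ 0 ∧
    (∀ p, p ∈ P ↔ ∀ g, v' (p⁻¹ * g) = v' g) ∧ (∀ i ∈ I, Z i ∈ P) ∧ P.index ≤ m.factorial

/-- A normal subgroup with an invariant vector acts trivially. -/
def S_Ninv : Prop := ∀ (G : Type) [Group G] [Fintype G] (d : ℕ)
  (ρ : G →* Matrix (Fin d) (Fin d) ℂ), IsIrr ρ → ∀ (H : Subgroup G) (lam : H →* ℂˣ),
  (∀ g, (ρ g).trace = indL H lam g) → ∀ N : Subgroup G, N.Normal → ∀ v' : G → ℂ,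
  Cov H lam v' → v' ≠ 0 → (∀ x ∈ N, ∀ g, v' (x⁻¹ * g) = v' g) → ∀ x ∈ N, ρ x = 1

/-- The structure of a slow representation. -/
def S_Struct : Prop := ∀ (G : Type) [Group G] [Fintype G] (P : Planch G) (M : Mono P)
  (k D r₀ : ℕ) (Z : Fin k → G) (γ : ℝ) (i : P.ι), 0 < k → 0 < γ → γ ≤ 1 → P.nt i →
  P.d i ≤ D → Nat.card (M.lam i).range ≤ r₀ →
  (((D * r₀).factorial : ℕ) : ℝ) * Real.sqrt (γ * (D : ℝ)) < 1 →
  ¬ DGap Z (M.H i) (M.lam i) (γ ^ 2 / 2) →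
  ∃ (P' : Subgroup G) (I : Finset (Fin k)), P'.index ≤ (D * r₀).factorial ∧
    (1 - γ) * (k : ℝ) ≤ (I.card : ℝ) ∧ (∀ j ∈ I, Z j ∈ P') ∧
    ∀ K : Subgroup G, K.Normal → P' ⊔ K = ⊤ → ⁅K, K⁆ ≤ P' → P.Kl K i

/-- The numbers of the letters in the cosets. -/
def S_EQ : Prop := ∀ (Q : Type) [Fintype Q] [Nonempty Q] (k : ℕ) (y : ℝ), 0 < y →
  (Nat.card {z : Fin k → Q //
    ∃ q, y < |(kq z q : ℝ) - (k : ℝ) / (Fintype.card Q : ℝ)|} : ℝ) ≤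
    ((k : ℝ) / y ^ 2) * (Fintype.card Q : ℝ) ^ k

/-- A subgroup with most of the letters meets all the cosets. -/
def S_Full : Prop := ∀ (G : Type) [Group G] [Fintype G] (K : Subgroup G) [K.Normal] (k : ℕ)
  (Z : Fin k → G) (γ : ℝ) (P : Subgroup G) (I : Finset (Fin k)),
  (∀ x : G ⧸ K, γ * (k : ℝ) < (kq (fun i => (Z i : G ⧸ K)) x : ℝ)) →
  (1 - γ) * (k : ℝ) ≤ (I.card : ℝ) → (∀ i ∈ I, Z i ∈ P) → P ⊔ K = ⊤

/-- Linear characters of large order are not slow. -/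
def S_Big : Prop := ∀ (D : ℕ) (C₀ η : ℝ), 1 ≤ D → 0 < C₀ → 0 < η →
  ∃ (r₀ : ℕ) (γ₀ : ℝ), 0 < γ₀ ∧ ∀ γ : ℝ, 0 < γ → γ ≤ γ₀ → ∃ k₀ : ℕ, ∀ k : ℕ, k₀ ≤ k →
  ∀ (G : Type) [Group G] [Fintype G], Real.log (Nat.card G) ≤ C₀ * (k : ℝ) →
  ∀ (ι : Type) [Fintype ι] (H : ι → Subgroup G) (lam : ∀ i, H i →* ℂˣ),
  Fintype.card ι ≤ Nat.card G → (∀ i, (H i).index ≤ D) →
  (Nat.card {Z : Fin k → G // ∃ i, r₀ < Nat.card (lam i).range ∧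
    ¬ DGap Z (H i) (lam i) (γ ^ 2 / 2)} : ℝ) ≤ η * (Nat.card G : ℝ) ^ k

/-- A maximal subgroup not containing `[K, K]`. -/
def S_MaxNL : Prop := ∀ (G : Type) [Group G] [Finite G], Group.IsNilpotent G →
  ∀ (K P : Subgroup G), K.Normal → P ⊔ K = ⊤ → ¬ ⁅K, K⁆ ≤ P →
  ∃ P' : Subgroup G, P ≤ P' ∧ BadT K P'

/-- The number of the normal subgroups of given index in a normal subgroup. -/
def S_NormC : Prop := ∀ N₀ : ℕ, ∃ c : ℕ, ∀ (G : Type) [Group G] [Finite G] (S : Finset G),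
  Subgroup.closure (S : Set G) = ⊤ → ∀ (R : Subgroup G), R.Normal → ∀ m : ℕ,
  Nat.card {U : Subgroup G // U.Normal ∧ U ≤ R ∧ U.relIndex R = m ∧ U.index ≤ N₀} ≤
    c * m ^ S.card

/-- The number of the complements. -/
def S_Compl : Prop := ∀ (G : Type) [Group G] [Finite G] (K U : Subgroup G), K.Normal →
  Nat.card {P : Subgroup G // P ⊔ K = ⊤ ∧ P ⊓ K = U} ≤ (U.relIndex K) ^ K.index

/-- The subgroups to which a linear character extends are contained in few proper subgroups. -/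
def S_MuR : Prop := ∀ (G : Type) [Group G] [Finite G] (K : Subgroup G), K.Normal → ∀ (B : ℕ)
  (μ : (⁅K, K⁆ : Subgroup G) →* ℂˣ), μ ≠ 1 →
  ∃ T : Finset (Subgroup G), T.card ≤ 2 ^ (B ^ 2) + 1 ∧ (∀ R ∈ T, R.Normal ∧ R < K) ∧
    ∀ U : Subgroup G, U.Normal → U ≤ K → ⁅K, K⁆ ≤ U → U.relIndex K ≤ B → ExtU K U μ →
      ∃ R ∈ T, U ≤ R

/-- Every induced character contains an irreducible character of small degree. -/
def S_MuA : Prop := ∀ (G : Type) [Group G] [Fintype G] (P : Planch G) (U : Subgroup G)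
  (lam : U →* ℂˣ), ∃ i, P.d i ≤ U.index ∧
    ∑ g : G, indL U lam g * (starRingEnd ℂ) ((P.ρ i g).trace) ≠ 0

/-- Two induced characters which are not orthogonal. -/
def S_MuB : Prop := ∀ (G : Type) [Group G] [Fintype G] (U H : Subgroup G) (lam : U →* ℂˣ)
  (nu : H →* ℂˣ), ∑ g : G, indL U lam g * (starRingEnd ℂ) (indL H nu g) ≠ 0 →
  ∃ x : G, ∀ (g : G) (hU : g ∈ U) (hH : x⁻¹ * g * x ∈ H),
    lam ⟨g, hU⟩ = nu ⟨x⁻¹ * g * x, hH⟩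

/-- The number of the linear characters of the commutator subgroup which extend to a subgroup
of small index. -/
def S_MuC : Prop := ∀ (G : Type) [Group G] [Fintype G], Group.IsNilpotent G →
  ∀ (B : ℕ) (τ : ℝ), 1 ≤ B → 0 ≤ τ → (∀ H : Subgroup G, H.index ≤ B →
    (Nat.card (Abelianization H) : ℝ) ≤ τ * (Nat.card (Abelianization G) : ℝ)) →
  (Nat.card {μ : commutator G →* ℂˣ // ∃ (U : Subgroup G) (lam : U →* ℂˣ), U.index ≤ B ∧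
    commutator G ≤ U ∧ ∀ (x : G) (hx : x ∈ commutator G) (hU : x ∈ U),
      lam ⟨x, hU⟩ = μ ⟨x, hx⟩} : ℝ) ≤
    (B : ℝ) ^ 4 * (Real.exp (12 * (1 + Real.sqrt (Real.log (Nat.card G))) *
      Real.log B ^ 2) * (Real.log (Nat.card G) + 1) + 1) * τ

/-- The same for a terminal normal subgroup. -/
def S_MuK : Prop := ∀ (G : Type) [Group G] [Fintype G], Group.IsNilpotent G →
  ∀ (K : Subgroup G) (B : ℕ) (τ : ℝ), 1 ≤ B → 0 ≤ τ → Term K B τ →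
  Finite (MuS K B) ∧ (Nat.card (MuS K B) : ℝ) ≤
    (B : ℝ) ^ 4 * (Real.exp (12 * (1 + Real.sqrt (Real.log (Nat.card G))) *
      Real.log B ^ 2) * (Real.log (Nat.card G) + 1) + 1) * τ

/-- The number of the linear characters of prime order which are trivial on `[K, K]`. -/
def S_Lext : Prop := ∀ N₀ : ℕ, ∃ c : ℕ, ∀ (G : Type) [Group G] [Finite G] (S : Finset G),
  Subgroup.closure (S : Set G) = ⊤ → ∀ (K P₁ : Subgroup G) (p : ℕ), K.Normal → p.Prime →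
  ⁅K, K⁆ ≤ P₁ → P₁ ⊔ K = ⊤ → K.index * P₁.index * p ≤ N₀ →
  Nat.card {lam : P₁ →* ℂˣ // lam ^ p = 1 ∧ ∀ x : P₁, (x : G) ∈ ⁅K, K⁆ → lam x = 1} ≤
    c * p ^ S.card

/-- The number of the subgroups of bad type. -/
def S_BadC : Prop := ∀ B Jm : ℕ, ∃ c : ℕ, ∀ (G : Type) [Group G] [Finite G] (S : Finset G),
  Subgroup.closure (S : Set G) = ⊤ → ∀ (K : Subgroup G), K.Normal → K.index ≤ Jm →
  Finite (MuS K B) → ∀ j : ℕ, 1 ≤ j → j ≤ B →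
  Nat.card {P : Subgroup G // P.index = j ∧ BadT K P} * 2 ^ S.card ≤
    c * Nat.card (MuS K B) * j ^ S.card

/-- There is no large family of letters in a proper subgroup not containing `[K, K]`. -/
def S_NonL : Prop := ∀ (C₀ η : ℝ) (Jm B : ℕ), 0 < C₀ → 0 < η → 1 ≤ B → ∃ γ₀ : ℝ, 0 < γ₀ ∧
  ∀ γ : ℝ, 0 < γ → γ ≤ γ₀ → ∃ k₀ : ℕ, ∀ k : ℕ, k₀ ≤ k → ∀ (G : Type) [Group G] [Fintype G],
  Group.IsNilpotent G → Real.log (Nat.card G) ≤ C₀ * (k : ℝ) → ∀ S : Finset G,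
  Subgroup.closure (S : Set G) = ⊤ → S.card ≤ k → ∀ K : Subgroup G, K.Normal → K.index ≤ Jm →
  Term K B (Real.exp (Real.log 2 / 4 * (k : ℝ))) →
  (Nat.card {Z : Fin k → G // ∃ P : Subgroup G, P.index ≤ B ∧ P ⊔ K = ⊤ ∧ ¬ ⁅K, K⁆ ≤ P ∧
    ∃ I : Finset (Fin k), (1 - γ) * (k : ℝ) ≤ (I.card : ℝ) ∧ ∀ i ∈ I, Z i ∈ P} : ℝ) ≤
    η * (Nat.card G : ℝ) ^ k

/-- The probability that most of the letters are in a subgroup. -/
def S_PrP : Prop := ∀ (G : Type) [Group G] [Fintype G] (P : Subgroup G) (k : ℕ) (γ : ℝ),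
  0 < γ → γ ≤ 1 →
  (Nat.card {Z : Fin k → G // ∃ I : Finset (Fin k), (1 - γ) * (k : ℝ) ≤ (I.card : ℝ) ∧
    ∀ i ∈ I, Z i ∈ P} : ℝ) * (P.index : ℝ) ^ k ≤
    ((Real.exp 1 / γ) * (P.index : ℝ)) ^ (γ * (k : ℝ)) * (Nat.card G : ℝ) ^ k

/-! ## Block A3 : the decay of the slow linear characters of `K` -/

/-- A slow linear character of small order. -/
def S_Uni : Prop := ∀ (G : Type) [Group G] [Fintype G] (K : Subgroup G) [K.Normal]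
  (lam : K →* ℂˣ) (k Jm r₁ : ℕ) (Z : Fin k → G) (γ : ℝ), 0 < k → 0 < γ → γ ≤ 1 →
  K.index ≤ Jm → Nat.card lam.range ≤ r₁ →
  (((Jm * r₁).factorial : ℕ) : ℝ) * Real.sqrt (γ * (Jm : ℝ)) < 1 →
  (∀ x : G ⧸ K, γ * (k : ℝ) < (kq (fun i => (Z i : G ⧸ K)) x : ℝ)) →
  ¬ DGap Z K lam (γ ^ 2 / 2) →
  ∃ (P : Subgroup G) (v' : G → ℂ) (I : Finset (Fin k)), Cpl P K lam ∧ Cov K lam v' ∧
    (∀ g, ‖v' g‖ = 1) ∧ (∀ p ∈ P, ∀ g, v' (p⁻¹ * g) = v' g) ∧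
    (1 - γ) * (k : ℝ) ≤ (I.card : ℝ) ∧ ∀ i ∈ I, Z i ∈ P

/-- The rate of decay. -/
def S_Rate : Prop := ∀ (G : Type) [Group G] [Fintype G] (K : Subgroup G) [K.Normal]
  (lam : K →* ℂˣ) (k : ℕ) (Z : Fin k → G) (ε₁ : ℝ) (v' : G → ℂ) (I : Finset (Fin k)),
  0 < k → 0 < ε₁ → ε₁ ≤ 1 → Cov K lam v' → (∀ g, ‖v' g‖ = 1) →
  (∀ i ∈ I, ∀ g, v' ((Z i)⁻¹ * g) = v' g) →
  (∀ x : G ⧸ K, (k : ℝ) / (2 * (K.index : ℝ)) ≤ (kq (fun i => (Z i : G ⧸ K)) x : ℝ)) →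
  32 * ((k : ℝ) - (I.card : ℝ)) ≤ ε₁ * (k : ℝ) →
  4 * (K.index : ℝ) * ((k : ℝ) - (I.card : ℝ)) ≤ (k : ℝ) →
  DGap Z K lam (min ((1 - ε₁) * (∑ i, Ez v' (Z i)) / (k : ℝ)) (1 / 8))

/-- The law of the energy of a letter. -/
def S_Edist : Prop := ∀ (G : Type) [Group G] [Fintype G] (K : Subgroup G) [K.Normal]
  [Fintype (G ⧸ K)] (lam : K →* ℂˣ) (P : Subgroup G) (v' : G → ℂ) (s : ℝ), Cpl P K lam →
  Cov K lam v' → (∀ g, ‖v' g‖ = 1) → (∀ p ∈ P, ∀ g, v' (p⁻¹ * g) = v' g) →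
  ∑ z : G, Real.exp (-(2 * s * Ez v' z)) = (Nat.card G : ℝ) * ph3 (CF K lam) s

/-- The expected sum over the linear characters. -/
def S_LamE : Prop := ∀ (G : Type) [Group G] [Fintype G] (K : Subgroup G) [K.Normal]
  [Fintype (G ⧸ K)] (F F₁ : Finset (K →* ℂˣ)) (k r : ℕ) (γ ε₁ t : ℝ)
  (Good : (Fin k → G) → Prop), 0 < k → 0 < γ → 0 < ε₁ → ε₁ ≤ 1 → 0 ≤ t →
  (∀ lam ∈ F, Nat.card lam.range ≤ r → lam ∈ F₁) →
  (∀ Z, Good Z → ∀ lam ∈ F, DGap Z K lam (γ ^ 2 / 2) ∨ (Nat.card lam.range ≤ r ∧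
    ∃ (P : Subgroup G) (v' : G → ℂ), Cpl P K lam ∧ Cov K lam v' ∧ (∀ g, ‖v' g‖ = 1) ∧
      (∀ p ∈ P, ∀ g, v' (p⁻¹ * g) = v' g) ∧
      DGap Z K lam (min ((1 - ε₁) * (∑ i, Ez v' (Z i)) / (k : ℝ)) (1 / 8)))) →
  (open Classical in ∑ Z : Fin k → G, if Good Z then
      ∑ lam ∈ F, QF (indL K lam) (law Z t) else 0) ≤
    (Nat.card G : ℝ) ^ k * ((K.index : ℝ) *
      ((F.card : ℝ) * (Real.exp (-(γ ^ 2 * t)) + Real.exp (-(t / 4))) +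
        ∑ lam ∈ F₁, (Nat.card {P : Subgroup G // Cpl P K lam} : ℝ) *
          ph3 (CF K lam) ((1 - ε₁) * t / (k : ℝ)) ^ k))

/-! ## Block T3 : the cutoff time -/

/-- The number of the pairs `(P, lam)` with a given set of functions. -/
def S_NCb : Prop := ∀ (G : Type) [Group G] [Finite G] (K : Subgroup G) [K.Normal] (r : ℕ)
  (C : Finset (G ⧸ K → ℂ)) (S : Finset G), Subgroup.closure (S : Set G) = ⊤ →
  NC K r C ≤ C.card ^ S.card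

/-- The number of the complements `P` for a given linear character. -/
def S_NCp : Prop := ∀ (G : Type) [Group G] [Finite G] (K : Subgroup G) [K.Normal]
  (lam : K →* ℂˣ), Nat.card {P : Subgroup G // Cpl P K lam} ≤ (CF K lam).card ^ K.index

/-- The pairs and the linear characters. -/
def S_NCs : Prop := ∀ (G : Type) [Group G] [Finite G] (K : Subgroup G) [K.Normal] (r : ℕ)
  (F : Finset (K →* ℂˣ)), (∀ lam, lam ∈ F ↔ lam ≠ 1 ∧ Nat.card lam.range ≤ r) →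
  ∀ f : Finset (G ⧸ K → ℂ) → ℝ, (open Classical in
    ∑ lam ∈ F, (Nat.card {P : Subgroup G // Cpl P K lam} : ℝ) * f (CF K lam) =
      ∑ C ∈ F.image (CF K), (NC K r C : ℝ) * f C)

/-- The number of the types. -/
def S_TyN : Prop := ∀ (G : Type) [Group G] [Finite G] (K : Subgroup G) [K.Normal] (r : ℕ)
  (F : Finset (K →* ℂˣ)), (∀ lam ∈ F, Nat.card lam.range ≤ r) →
  (open Classical in (F.image (CF K)).card) ≤ 2 ^ (r.factorial ^ K.index)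

/-- Elementary facts on the functions `cf`. -/
def S_CFg : Prop := ∀ (G : Type) [Group G] [Finite G] (K : Subgroup G) [K.Normal]
  (lam : K →* ℂˣ), 1 ∈ CF K lam ∧ (∀ c ∈ CF K lam, ∀ c' ∈ CF K lam, c * c' ∈ CF K lam) ∧
  (∀ c ∈ CF K lam, c⁻¹ ∈ CF K lam) ∧ (∀ c ∈ CF K lam, ∀ x, ‖c x‖ = 1) ∧
  (∀ c ∈ CF K lam, ∀ q : G ⧸ K, (fun x => c (x * q)) ∈ CF K lam) ∧
  (lam ≠ 1 → 2 ≤ (CF K lam).card) ∧ (CF K lam).card ≤ Nat.card lam.range ^ K.index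

/-- Bounds of the energy. -/
def S_EnL : Prop := ∀ (G : Type) [Group G] [Finite G] (K : Subgroup G) [K.Normal]
  [Fintype (G ⧸ K)] (lam : K →* ℂˣ) (r : ℕ), Nat.card lam.range ≤ r → ∀ c ∈ CF K lam,
  0 ≤ En c ∧ En c ≤ 2 ∧ (c ≠ 1 → 8 / ((r : ℝ) ^ 2 * (K.index : ℝ)) ≤ En c)

/-- After the threshold. -/
def S_StUp : Prop := ∀ (ν e₀ : ℝ) (cm : ℕ), 0 < ν → 0 < e₀ → ∃ (ω₀ : ℕ) (u₀ : ℝ), 0 < u₀ ∧
  ∀ (Q : Type) [Fintype Q] (C : Finset (Q → ℂ)) (k d : ℕ) (N s₁ s' : ℝ), 1 ∈ C →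
  2 ≤ C.card → C.card ≤ cm → (∀ c ∈ C, 0 ≤ En c) → (∀ c ∈ C, c ≠ 1 → e₀ ≤ En c) → 0 ≤ N →
  N ≤ (C.card : ℝ) ^ d → d + ω₀ ≤ k → 0 ≤ s₁ → s₁ + u₀ ≤ s' → N * ph3 C s₁ ^ k ≤ 1 →
  N * ph3 C s' ^ k ≤ ν

/-- Elementary facts on the threshold. -/
def S_Star : Prop := ∀ (G : Type) [Group G] [Finite G] (K : Subgroup G) [K.Normal]
  [Fintype (G ⧸ K)] (k r : ℕ) (S : Finset G), Subgroup.closure (S : Set G) = ⊤ → 1 ≤ r →
  S.card + 2 ≤ k →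
  0 ≤ sStar K k r ∧
  sStar K k r ≤ Real.log ((k : ℝ) * (r : ℝ) ^ K.index) /
    (2 * (8 / ((r : ℝ) ^ 2 * (K.index : ℝ)))) ∧
  (∀ s : ℝ, sStar K k r < s → ∀ lam : K →* ℂˣ, lam ≠ 1 → Nat.card lam.range ≤ r →
    (NC K r (CF K lam) : ℝ) * ph3 (CF K lam) s ^ k ≤ 1) ∧
  ∀ s : ℝ, 0 ≤ s → s < sStar K k r → ∃ lam : K →* ℂˣ, lam ≠ 1 ∧ Nat.card lam.range ≤ r ∧
    1 < (NC K r (CF K lam) : ℝ) * ph3 (CF K lam) s ^ k

/-- The threshold is large in the saturated case. -/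
def S_StInf : Prop := ∀ (G : Type) [Group G] [Finite G] (K : Subgroup G) [K.Normal]
  [Fintype (G ⧸ K)] (k r : ℕ) (S : Finset G), Subgroup.closure (S : Set G) = ⊤ → 2 ≤ r →
  S.card + 2 ≤ k → 2 * K.index ≤ 2 ^ S.card →
  2 ^ S.card ≤ Nat.card (G →* Multiplicative (ZMod 2)) → ∀ s : ℝ, 0 ≤ s →
  2 * ((k : ℝ) - (S.card : ℝ) + 1) * Real.exp (4 * s) < (k : ℝ) → s ≤ sStar K k r

/-! ## Block L3 : the lower bound -/

/-- The numbers of the transitions. -/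
def S_Trs : Prop := ∀ (Q : Type) [Group Q] [Fintype Q] (k n : ℕ) (ε : ℝ), 0 < ε →
  8 < ε * (k : ℝ) →
  (Nat.card {p : (Fin k → Q) × (Fin n → Fin k) // ∃ a q, ε * (k : ℝ) <
    |(trs p.1 p.2 a q : ℝ) - (n : ℝ) / (Fintype.card Q : ℝ) ^ 2|} : ℝ) ≤
    (Fintype.card Q : ℝ) ^ k * (k : ℝ) ^ n *
      (1000 * (Fintype.card Q : ℝ) ^ 3 * ((n : ℝ) / (ε * (k : ℝ)) ^ 2 +
        (n : ℝ) ^ 2 / (ε ^ 2 * (k : ℝ) ^ 3)))

open Classical in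
/-- The words with given increments: one letter. -/
def S_PathE : Prop := ∀ (Q : Type) [Group Q] [Fintype Q] (k n : ℕ) (z : Fin k → Q)
  (q : Fin n → Q) (c : Q → ℂ) (i : Fin k),
  ∑ w ∈ (Finset.univ.filter fun w : Fin n → Fin k => ∀ j, z (w j) = q j),
      evc c (cnt z w i) =
    ∏ j : Fin n, ((kq z (q j) : ℂ) + if q j = z i then c (pst q j) - 1 else 0)

open Classical in
/-- The words with given increments: two letters. -/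
def S_PathP : Prop := ∀ (Q : Type) [Group Q] [Fintype Q] (k n : ℕ) (z : Fin k → Q)
  (q : Fin n → Q) (c : Q → ℂ) (i i' : Fin k), i ≠ i' →
  ∑ w ∈ (Finset.univ.filter fun w : Fin n → Fin k => ∀ j, z (w j) = q j),
      evc c (cnt z w i) * (starRingEnd ℂ) (evc c (cnt z w i')) =
    ∏ j : Fin n, ((kq z (q j) : ℂ) + (if q j = z i then c (pst q j) - 1 else 0) +
      if q j = z i' then (starRingEnd ℂ) (c (pst q j)) - 1 else 0)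

/-- The mean of `evc c (cnt z w i)` over the words with given increments. -/
noncomputable def mPath {Q : Type} [Group Q] {k n : ℕ} (z : Fin k → Q) (q : Fin n → Q)
    (c : Q → ℂ) (i : Fin k) : ℂ :=
  ∏ j : Fin n, (1 + (open Classical in if q j = z i then
    (c (pst q j) - 1) / (kq z (q j) : ℂ) else 0))

open Classical in
/-- The variance over the words with given increments. -/
def S_PathV : Prop := ∀ (Q : Type) [Group Q] [Fintype Q] (k n : ℕ) (z : Fin k → Q)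
  (q : Fin n → Q) (c : Q → ℂ), (∀ x, ‖c x‖ = 1) → (∀ x, 4 ≤ kq z x) →
  ∑ w ∈ (Finset.univ.filter fun w : Fin n → Fin k => ∀ j, z (w j) = q j),
      ‖∑ i, evc c (cnt z w i) - ∑ i, mPath z q c i‖ ^ 2 ≤
    (k : ℝ) * ((Finset.univ.filter fun w : Fin n → Fin k => ∀ j, z (w j) = q j).card : ℝ)

/-- A product of factors close to one. -/
def S_PrExp : Prop := ∀ (n : ℕ) (u : Fin n → ℂ) (L : ℂ) (a b : ℝ), (∀ j, ‖u j‖ ≤ 1 / 2) →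
  ∑ j, ‖u j‖ ^ 2 ≤ a → ‖∑ j, u j - L‖ ≤ b → a + b ≤ 1 / 4 →
  ‖∏ j, (1 + u j) - Complex.exp L‖ ≤ (1 / 3) * Real.exp L.re

/-- The mean for a typical path. -/
def S_MPath : Prop := ∀ (J₀ : ℕ) (C₁ : ℝ), 0 < C₁ → ∃ (ε : ℝ) (k₀ : ℕ), 0 < ε ∧ ∀ k : ℕ,
  k₀ ≤ k → ∀ (Q : Type) [Group Q] [Fintype Q], Fintype.card Q ≤ J₀ → ∀ n : ℕ,
  (n : ℝ) ≤ C₁ * (k : ℝ) * Real.log k → ∀ (z : Fin k → Q) (q : Fin n → Q) (c : Q → ℂ),
  (∀ x, ‖c x‖ = 1) →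
  (∀ x, |(kq z x : ℝ) - (k : ℝ) / (Fintype.card Q : ℝ)| ≤ (k : ℝ) ^ (2 / 3 : ℝ)) →
  (∀ a x, |(Nat.card {j : Fin n // pst q j = a ∧ q j = x} : ℝ) -
    (n : ℝ) / (Fintype.card Q : ℝ) ^ 2| ≤ ε * (k : ℝ)) →
  (∀ x, 4 ≤ kq z x) ∧
  (2 / 3) * (k : ℝ) * Real.exp (-((n : ℝ) / (k : ℝ) * En c)) ≤ ‖∑ i, mPath z q c i‖

/-- The statistic for a typical word. -/
def S_LTyp : Prop := ∀ (J₀ : ℕ) (C₁ η : ℝ), 0 < C₁ → 0 < η → ∃ (M₀ : ℝ) (k₀ : ℕ), 0 < M₀ ∧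
  ∀ k : ℕ, k₀ ≤ k → ∀ (Q : Type) [Group Q] [Fintype Q], Fintype.card Q ≤ J₀ → ∀ n : ℕ,
  (n : ℝ) ≤ C₁ * (k : ℝ) * Real.log k → ∀ c : Q → ℂ, (∀ x, ‖c x‖ = 1) →
  M₀ ≤ (k : ℝ) * Real.exp (-((n : ℝ) / (k : ℝ) * En c)) ^ 2 →
  (Nat.card {p : (Fin k → Q) × (Fin n → Fin k) // ‖∑ i, evc c (cnt p.1 p.2 i)‖ <
    (k : ℝ) * Real.exp (-((n : ℝ) / (k : ℝ) * En c)) / 3} : ℝ) ≤
    η * ((Fintype.card Q : ℝ) ^ k * (k : ℝ) ^ n)

/-- Large deviations of a sum of independent uniform variables. -/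
def S_HoC : Prop := ∀ (α : Type) [Fintype α] [Nonempty α] (f : α → ℂ), (∀ x, ‖f x‖ ≤ 1) →
  ∑ x, f x = 0 → ∀ (k : ℕ) (y : ℝ), 0 < k → 0 ≤ y →
  (Nat.card {x : Fin k → α // y ≤ ‖∑ i, f (x i)‖} : ℝ) ≤
    4 * (Fintype.card α : ℝ) ^ k * Real.exp (-(y ^ 2 / (4 * (k : ℝ))))

/-- The number of the classes of counts with a large value of the statistic. -/
def S_ClsN : Prop := ∀ (G : Type) [Group G] [Finite G] (K : Subgroup G) [K.Normal]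
  [Fintype (G ⧸ K)] (lam : K →* ℂˣ), ∀ c ∈ CF K lam, c ≠ 1 → ∀ (k : ℕ) (y : ℝ), 0 < k →
  0 ≤ y → ∀ X : Finset (Fin k → CF K lam → ℂ),
  (∀ x ∈ X, ∃ N : Fin k → G ⧸ K → ℕ, (∀ i (c' : CF K lam), x i c' = evc c'.1 (N i)) ∧
    y ≤ ‖∑ i, evc c (N i)‖) →
  (X.card : ℝ) ≤ 4 * ((CF K lam).card : ℝ) ^ k * Real.exp (-(y ^ 2 / (4 * (k : ℝ))))

/-- The index of the subgroup `MS` for the vectors which are killed by a set of functions. -/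
def S_MSi : Prop := ∀ (G : Type) [Group G] [Finite G] (K : Subgroup G) [K.Normal]
  [Fintype (G ⧸ K)] (C : Finset (G ⧸ K → ℂ)) (S : Finset (G ⧸ K → ℤ)),
  (∀ δ ∈ S, ∀ c ∈ C, ∏ x, c x ^ δ x = 1) →
  Nat.card {lam : K →* ℂˣ // CF K lam = C} ≤ (MS K S).index

/-- The number of the elements reached by words with a large value of the statistic. -/
def S_LB3 : Prop := ∀ (G : Type) [Group G] [Fintype G] (K : Subgroup G) [K.Normal]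
  [Fintype (G ⧸ K)] (k n : ℕ) (Z : Fin k → G) (lam : K →* ℂˣ), ∀ c ∈ CF K lam, c ≠ 1 →
  ∀ y : ℝ, 0 < k → 0 ≤ y →
  (Nat.card {g : G // ∃ w : Fin n → Fin k, wprod Z w = g ∧
    y ≤ ‖∑ i, evc c (cnt (fun i => (Z i : G ⧸ K)) w i)‖} : ℝ) *
    (Nat.card {lam' : K →* ℂˣ // CF K lam' = CF K lam} : ℝ) ≤
  (Nat.card G : ℝ) * ((n : ℝ) + 1) ^ (K.index ^ 2) *
    (4 * ((CF K lam).card : ℝ) ^ k * Real.exp (-(y ^ 2 / (4 * (k : ℝ)))))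

/-- The lower bound. -/
def S_Low3 : Prop := ∀ (Jm r : ℕ) (ε η : ℝ), 2 ≤ r → 0 < ε → ε < 1 → 0 < η →
  ∃ (σ₀ : ℝ) (k₀ : ℕ), ∀ k : ℕ, k₀ ≤ k → ∀ (G : Type) [Group G] [Fintype G]
  (K : Subgroup G) [K.Normal] [Fintype (G ⧸ K)], K.index ≤ Jm → ∀ S : Finset G,
  Subgroup.closure (S : Set G) = ⊤ → S.card + 2 ≤ k → σ₀ ≤ sStar K k r →
  Real.log k ^ 3 ≤ ((k : ℝ) - (S.card : ℝ)) *
    Real.exp (ε * (8 / ((r : ℝ) ^ 2 * (Jm : ℝ))) * sStar K k r) →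
  (1 - η) * (Nat.card G : ℝ) ^ k ≤
    ∑ Z : Fin k → G, dTV Z ((1 - ε) * (sStar K k r * (k : ℝ)))

/-! ## Block F3 : assembly -/

/-- The upper bound. -/
def S_Up3 : Prop := ∀ (C₀ ε η : ℝ), 0 < C₀ → 0 < ε → ε ≤ 1 → 0 < η → ∃ B : ℕ, 1 ≤ B ∧
  ∀ Jm : ℕ, ∃ (r : ℕ) (σ₀ : ℝ) (ω₀ k₀ : ℕ), 2 ≤ r ∧ ∀ k : ℕ, k₀ ≤ k →
  ∀ (G : Type) [Group G] [Fintype G], Group.IsNilpotent G →
  Real.log (Nat.card G) ≤ C₀ * (k : ℝ) → ∀ S : Finset G,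
  Subgroup.closure (S : Set G) = ⊤ → S.card + ω₀ ≤ k →
  ∀ (K : Subgroup G) [K.Normal] [Fintype (G ⧸ K)], K.index ≤ Jm →
  Term K B (Real.exp (Real.log 2 / 4 * (k : ℝ))) → σ₀ ≤ sStar K k r →
  ∑ Z : Fin k → G, dTV Z ((1 + ε) * (sStar K k r * (k : ℝ))) ≤ η * (Nat.card G : ℝ) ^ k

/-- Cutoff in the saturated case. -/
def S_Sat : Prop := ∀ (C₀ ε η : ℝ), 0 < C₀ → 0 < ε → ε < 1 → 0 < η →
  ∃ (δ₀ : ℝ) (ω₀ k₀ : ℕ), 0 < δ₀ ∧ ∀ k : ℕ, k₀ ≤ k →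
  ∀ (G : Type) [Group G] [Fintype G], Group.IsNilpotent G →
  Real.log (Nat.card G) ≤ C₀ * (k : ℝ) → ∀ S : Finset G,
  Subgroup.closure (S : Set G) = ⊤ → 2 ^ S.card ≤ Nat.card (G →* Multiplicative (ZMod 2)) →
  S.card + ω₀ ≤ k → (1 - δ₀) * (k : ℝ) ≤ (S.card : ℝ) →
  ∃ t : ℝ, 0 ≤ t ∧
    (1 - η) * (Nat.card G : ℝ) ^ k ≤ ∑ Z : Fin k → G, dTV Z ((1 - ε) * t) ∧
    ∑ Z : Fin k → G, dTV Z ((1 + ε) * t) ≤ η * (Nat.card G : ℝ) ^ k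

/-- The rank of a nilpotent group. -/
def S_Rank : Prop := ∀ (G : Type) [Group G] [Finite G], Group.IsNilpotent G →
  ∃ (p : ℕ) (S : Finset G), p.Prime ∧ Subgroup.closure (S : Set G) = ⊤ ∧
    p ^ S.card ≤ Nat.card (G →* Multiplicative (ZMod p)) ∧
    Nat.card (G →* Multiplicative (ZMod p)) ≤ Nat.card (Abelianization G)

/-- The theorem of stage 3. -/
def S_Main3 : Prop := ∀ (G : ℕ → Type) [∀ n, Group (G n)] [∀ n, Fintype (G n)] (k : ℕ → ℕ)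
  (C₀ : ℝ), (∀ n, Group.IsNilpotent (G n)) →
  Tendsto (fun n => (Nat.card (G n) : ℝ)) atTop atTop →
  Tendsto (fun n => Real.log (k n) / Real.log (Nat.card (G n))) atTop (𝓝 0) →
  Tendsto (fun n => (k n : ℝ) - Real.logb 2 (Nat.card (Abelianization (G n)))) atTop atTop →
  (∀ᶠ n in atTop, Real.log (Nat.card (G n)) ≤ C₀ * (k n : ℝ)) →
  ∃ t : ℕ → ℝ,
  (∀ ε : ℝ, 0 < ε → ε < 1 → ∀ δ : ℝ, 0 < δ →
    Tendsto (fun n => prob (G n) (k n) fun Z => 1 - δ ≤ dTV Z ((1 - ε) * t n)) atTop (𝓝 1)) ∧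
  (∀ ε : ℝ, 0 < ε → ∀ δ : ℝ, 0 < δ →
    Tendsto (fun n => prob (G n) (k n) fun Z => dTV Z ((1 + ε) * t n) ≤ δ) atTop (𝓝 1))

end NilCut
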